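import Mathlib

/-!
Paths in a rectangle.
-/

open Finset

namespace Pool.Agent.Lib.MP_13404a_ag.UB

lemma anti_path {t : ℕ} {u : ℕ → ℤ} (hu : ∀ l < t, u (l + 1) ≤ u l) (c s : ℕ) (h : c + s ≤ t) :
    u (c + s) ≤ u c := by
  induction s with
  | zero => exact le_rfl
  | succ s ih => exact (hu (c + s) (by omega)).trans (ih (by omega))

section
variable {w t : ℕ} {y u : ℕ → ℤ} {N : ℕ → ℕ → ℤ}
  (h1 : ∀ l < t, ∀ i ≤ w, N (l + 1) i + y i ≤ N l i)
  (h2 : ∀ l ≤ t, ∀ i < w, N l (i + 1) + u l ≤ N l i)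
include h1 h2

lemma diag_path (l i s : ℕ) (hl : l + s ≤ t) (hi : i + s ≤ w) :
    N (l + s) (i + s) + ∑ j ∈ range (i + s + 1), y j + ∑ j ∈ range (l + s), u j ≤
      N l i + ∑ j ∈ range (i + 1), y j + ∑ j ∈ range l, u j := by
  induction s with
  | zero => exact le_rfl
  | succ s ih =>
    have a := ih (by omega) (by omega)
    have b := h1 (l + s) (by omega) (i + s + 1) (by omega)
    have c := h2 (l + s) (by omega) (i + s) (by omega)
    rw [← add_assoc l, ← add_assoc i, sum_range_succ _ (i + s + 1), sum_range_succ _ (l + s)]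
    linarith

omit h2 in
lemma side_path (hu : ∀ l < t, u (l + 1) ≤ u l) {c : ℕ} (hc : c ≤ w) (h : u c ≤ y c) (s : ℕ)
    (hs : c + s ≤ t) : N (c + s) c + ∑ j ∈ range (c + s), u j ≤ N c c + ∑ j ∈ range c, u j := by
  induction s with
  | zero => exact le_rfl
  | succ s ih =>
    have a := ih (by omega)
    have b := h1 (c + s) (by omega) c hc
    have d := anti_path hu c s (by omega)
    rw [← add_assoc c, sum_range_succ _ (c + s)]
    linarith

omit h2 in
lemma down_path (y0 : 0 ≤ y w) (l s : ℕ) (hs : l + s ≤ t) : N (l + s) w ≤ N l w := by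
  induction s with
  | zero => exact le_rfl
  | succ s ih =>
    have a := ih (by omega)
    have b := h1 (l + s) (by omega) w le_rfl
    rw [← add_assoc l]
    linarith

/-- Go along the diagonal to `(c, c)`, a step from `(l, i)` to `(l + 1, i + 1)` through `(l, i + 1)`
gains `u l + y (i + 1)`; make `t - w` steps in `l`, each gains `y c ≥ u c ≥ u l`; go along the
diagonal to `(t, w)`. -/
lemma path_a (hwt : w ≤ t) (hu : ∀ l < t, u (l + 1) ≤ u l) {c : ℕ} (hc : c ≤ w)
    (h : u c ≤ y c) :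
    N t w + ∑ i ∈ range (w + 1), y i + ∑ l ∈ range (t + 1), u l ≤ N 0 0 + y 0 + u t := by
  have a := diag_path h1 h2 0 0 c (by omega) (by omega)
  have b := side_path h1 hu hc h (t - w) (by omega)
  have d := diag_path h1 h2 (c + (t - w)) c (w - c) (by omega) (by omega)
  rw [show c + (t - w) + (w - c) = t by omega, show c + (w - c) = w by omega] at d
  simp only [zero_add, sum_range_one, sum_range_zero, add_zero] at a
  rw [sum_range_succ _ t]
  linarith

/-- Go along the diagonal to `(w, w)`. -/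
lemma path_b (hwt : w ≤ t) (h : ∀ c ≤ w, y c ≤ u c) :
    N w w + 2 * ∑ i ∈ range (w + 1), y i ≤ N 0 0 + y 0 + y w := by
  have a := diag_path h1 h2 0 0 w (by omega) (by omega)
  simp only [zero_add, sum_range_one, sum_range_zero, add_zero] at a
  have b : ∑ i ∈ range w, y i ≤ ∑ i ∈ range w, u i :=
    sum_le_sum fun i hi => h i (mem_range.1 hi).le
  have d := sum_range_succ y w
  linarith

/-- If `w ≤ t` use `path_a`, `path_b` and `N t w ≤ N w w`; otherwise apply them to
`fun i l => N l i` with the roles of `y, w` and `u, t` exchanged. -/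
theorem path (hy : ∀ i < w, y (i + 1) ≤ y i) (hu : ∀ l < t, u (l + 1) ≤ u l)
    (y0 : ∀ i ≤ w, 0 ≤ y i) (u0 : ∀ l ≤ t, 0 ≤ u l) (hN : -1 ≤ N t w) :
    ∑ i ∈ range (w + 1), y i + ∑ l ∈ range (t + 1), u l ≤ N 0 0 + y 0 + u 0 + 1 ∨
      2 * ∑ i ∈ range (w + 1), y i ≤ N 0 0 + 2 * y 0 + 1 ∨
      (t < w ∧ ∑ l ∈ range (t + 1), u l ≤ ∑ i ∈ range (w + 1), y i ∧
        2 * ∑ l ∈ range (t + 1), u l ≤ N 0 0 + 2 * u 0 + 1) := by
  have ut := anti_path hu 0 t (by omega)
  have yw := anti_path hy 0 w (by omega)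
  rw [zero_add] at ut yw
  rcases le_or_gt w t with hwt | hwt
  · by_cases h : ∃ c ≤ w, u c ≤ y c
    · obtain ⟨c, hc, h⟩ := h
      have a := path_a h1 h2 hwt hu hc h
      exact Or.inl (by linarith)
    · have a := path_b h1 h2 hwt fun c hc => (not_le.1 fun e => h ⟨c, hc, e⟩).le
      have b := down_path h1 (y0 w le_rfl) w (t - w) (by omega)
      rw [show w + (t - w) = t by omega] at b
      exact Or.inr (Or.inl (by linarith))
  · have g1 : ∀ l < w, ∀ i ≤ t, (fun i l => N l i) (l + 1) i + u i ≤ (fun i l => N l i) l i :=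
      fun l hl i hi => h2 i hi l hl
    have g2 : ∀ l ≤ w, ∀ i < t, (fun i l => N l i) l (i + 1) + y l ≤ (fun i l => N l i) l i :=
      fun l hl i hi => h1 i hi l hl
    by_cases h : ∃ c ≤ t, y c ≤ u c
    · obtain ⟨c, hc, h⟩ := h
      have a := path_a g1 g2 hwt.le hy hc h
      exact Or.inl (by linarith)
    · have h' : ∀ c ≤ t, u c ≤ y c := fun c hc => (not_le.1 fun e => h ⟨c, hc, e⟩).le
      have a := path_b g1 g2 hwt.le h'
      have b := down_path g1 (u0 t le_rfl) t (w - t) (by omega)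
      rw [show t + (w - t) = w by omega] at b
      refine Or.inr (Or.inr ⟨hwt, ?_, by linarith⟩)
      refine (sum_le_sum fun i hi => h' i (Nat.lt_succ_iff.1 (mem_range.1 hi))).trans ?_
      exact sum_le_sum_of_subset_of_nonneg (range_subset_range.2 (by omega))
        fun i hi _ => y0 i (Nat.lt_succ_iff.1 (mem_range.1 hi))

end

end Pool.Agent.Lib.MP_13404a_ag.UB
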