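import Pool.Agent.Lib.MP_13404a_ag.PD.Pen
import Pool.Agent.Lib.MP_13404a_ag.PD.Path

/-!
A bound of Clifford type for multiples of a divisor.
-/

open Module Submodule Function Finsupp
open scoped IntermediateField Polynomial

namespace Pool.Agent.Lib.MP_13404a_ag.UB

open Pool.Agent.Lib.MP_15f242_ag

variable {k K : Type} [Field k] [CharZero k] [Field K] [Algebra k K] [FF k K] {x : K}
  {κ D : Div k K} {n : ℕ}

/-- The defect of the multiplication of sections. -/
noncomputable def mug (x : K) (κ D : Div k K) (j i : ℕ) : ℤ :=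
  (ll (κ - (i + j) • pol k x) : ℤ) - ll (κ - D - j • pol k x) - ll (D - i • pol k x)

/-- `ll_add_ge`. -/
lemma mug_ge {j i : ℕ} (h : 0 < ll (κ - D - j • pol k x)) (h' : 0 < ll (D - i • pol k x)) :
    -1 ≤ mug x κ D j i := by
  have h1 := ll_add_ge h h'
  have e : κ - D - j • pol k x + (D - i • pol k x) = κ - (i + j) • pol k x := by
    rw [add_nsmul]; abel
  rw [e] at h1
  unfold mug
  omega

lemma pos_mono_gain {H : Div k K} {a b : ℕ} (hab : a ≤ b) (h : 0 < ll (H - b • pol k x)) :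
    0 < ll (H - a • pol k x) :=
  h.trans_le (ll_mono (sub_le_sub_left (nsmul_le_nsmul_left (pol_nonneg x) hab) H))

lemma pos_nsmul_gain (h : 0 < ll D) (c d : ℕ) : 0 < ll (c • D + d • pol k x) := by
  induction c with
  | zero =>
    rw [zero_nsmul, zero_add]
    exact ll_pos_of_nonneg (nsmul_nonneg (pol_nonneg x) d)
  | succ c ih =>
    have h1 := ll_add_ge ih h
    have e : c • D + d • pol k x + D = (c + 1) • D + d • pol k x := by
      rw [succ_nsmul]; abel
    rw [e] at h1
    omega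

lemma sum_two_gain (y : ℕ → ℤ) (w : ℕ) : ∑ e ∈ Finset.range w, (y e + y (e + 1)) =
    2 * ∑ e ∈ Finset.range (w + 1), y e - y 0 - y w := by
  induction w with
  | zero => simp; ring
  | succ w ih => rw [Finset.sum_range_succ, ih, Finset.sum_range_succ _ (w + 1)]; ring

namespace Pen
variable (T : Pen κ x n)
include T

/-- `bt_add`; the complement is `(i + j) • P ≥ 0`. -/
lemma mug_left {j i : ℕ} (h : 0 < ll (κ - D - j • pol k x)) (h' : 0 < ll (D - i • pol k x)) :
    mug x κ D (j + 1) i + (bt x (D - i • pol k x) - 1) ≤ mug x κ D j i := by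
  have e : κ - D - j • pol k x + (D - i • pol k x) = κ - (i + j) • pol k x := by
    rw [add_nsmul]; abel
  have h1 := T.bt_add h h' (by
    rw [e, sub_sub_cancel]; exact ll_pos_of_nonneg (nsmul_nonneg (pol_nonneg x) _))
  rw [e] at h1
  have e1 : κ - (i + (j + 1)) • pol k x = κ - (i + j) • pol k x - pol k x := by
    rw [← add_assoc, succ_nsmul]; abel
  have e2 : κ - D - (j + 1) • pol k x = κ - D - j • pol k x - pol k x := by
    rw [succ_nsmul]; abel
  unfold mug
  rw [e1, e2]
  unfold bt at h1 ⊢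
  omega

lemma mug_right {j i : ℕ} (h : 0 < ll (κ - D - j • pol k x)) (h' : 0 < ll (D - i • pol k x)) :
    mug x κ D j (i + 1) + (bt x (κ - D - j • pol k x) - 1) ≤ mug x κ D j i := by
  have e : κ - D - j • pol k x + (D - i • pol k x) = κ - (i + j) • pol k x := by
    rw [add_nsmul]; abel
  have h1 := T.bt_add h h' (by
    rw [e, sub_sub_cancel]; exact ll_pos_of_nonneg (nsmul_nonneg (pol_nonneg x) _))
  rw [e] at h1
  have e1 : κ - (i + 1 + j) • pol k x = κ - (i + j) • pol k x - pol k x := by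
    rw [add_right_comm, succ_nsmul]; abel
  have e2 : D - (i + 1) • pol k x = D - i • pol k x - pol k x := by
    rw [succ_nsmul]; abel
  unfold mug
  rw [e1, e2]
  unfold bt at h1 ⊢
  omega

lemma mug_left_iter_gain {j i : ℕ} (s : ℕ) (h : 0 < ll (κ - D - (j + s) • pol k x))
    (h' : 0 < ll (D - i • pol k x)) :
    mug x κ D (j + s) i + s * (bt x (D - i • pol k x) - 1) ≤ mug x κ D j i := by
  induction s with
  | zero => simp
  | succ s ih =>
    have h1 : 0 < ll (κ - D - (j + s) • pol k x) := pos_mono_gain (by omega) h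
    have h2 := ih h1
    have h3 := T.mug_left h1 h'
    rw [← add_assoc]
    push_cast
    linarith

/-- Induction on `e`, `bt_add`; the complement is `(J - e) • D + (e * i + l) • P`, which has
sections by `ll_add_ge` and `ll_mono`. -/
lemma bt_iter {J i l : ℕ} (h : 0 < ll (D - i • pol k x))
    (h' : 0 < ll (κ - J • D - l • pol k x)) (e : ℕ) (he : e ≤ J) :
    0 < ll (κ - (J - e) • D - (e * i + l) • pol k x) ∧
      e * (bt x (D - i • pol k x) - 1) + bt x (κ - J • D - l • pol k x) ≤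
        bt x (κ - (J - e) • D - (e * i + l) • pol k x) := by
  have hD : 0 < ll D := by simpa using pos_mono_gain (Nat.zero_le i) h
  induction e with
  | zero => simpa using h'
  | succ e ih =>
    obtain ⟨h1, h2⟩ := ih (by omega)
    have e1 : κ - (J - e) • D - (e * i + l) • pol k x + (D - i • pol k x) =
        κ - (J - (e + 1)) • D - ((e + 1) * i + l) • pol k x := by
      rw [show J - e = J - (e + 1) + 1 by omega, show (e + 1) * i + l = e * i + l + i by ring,
        succ_nsmul, add_nsmul _ (e * i + l) i]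
      abel
    have h3 := ll_add_ge h1 h
    have h4 := T.bt_add h1 h (by
      rw [e1, sub_sub, sub_sub_cancel]; exact pos_nsmul_gain hD _ _)
    rw [e1] at h3 h4
    refine ⟨by omega, ?_⟩
    push_cast
    linarith

/-- `w`, `t` from `exists_top` for `D` and `Z = κ - (m + 1) • D`, `y i = bt x (D - i • P) - 1`,
`u l = bt x (Z - l • P) - 1`, so `∑ y = r - w` and `∑ u = ll Z - t - 1` (`sum_bt`),
`N l i = mug x κ D (m * i + l) i + m * ∑ e < i, (y e + y (e + 1))`. The step in `l` is `mug_left`;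
the step in `i` is `mug_right` with `bt_iter` for `e = m`, followed by `m` times `mug_left` at
`i + 1`. Apply `path` to `N l i - m * ∑ e < w, (y e + y (e + 1))`, where
`∑ e < w, (y e + y (e + 1)) = 2 ∑ y - y 0 - y w` and `0 ≤ y w ≤ y 0`. `bt_iter` for `e = m + 1`
gives `(m + 1) * w + t ≤ τ` (at `i = w`, `l = t`) and `(m + 1) * y 0 + u 0 + 2 ≤ n` (at `0, 0`,
with `bt_lt`). -/
theorem gain {τ : ℕ} (hτ : ∀ j : ℕ, 0 < ll (κ - j • pol k x) → j ≤ τ) {r : ℕ}
    (hr : ll D = r + 1) (m : ℕ) (hZ : 0 < ll (κ - (m + 1) • D)) {ζ G : ℤ}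
    (hζ : ζ = ll (κ - (m + 1) • D)) (hG : G = (gn k K : ℤ) - ll (κ - D) + 2 * τ + 2 * n - 3) :
    2 * (m + 1) * r + ζ ≤ G ∨ (2 * m + 3) * r + 1 ≤ G ∨
      ((∃ i : ℕ, 0 < ll (D - i • pol k x) ∧ ll (κ - (m + 1) • D - i • pol k x) = 0) ∧
        ζ ≤ r + 1 ∧ (2 * m + 1) * r + 2 * ζ ≤ G + 1) := by
  obtain ⟨w, hw⟩ := exists_top T.tr (H := D) (by omega)
  obtain ⟨t, ht⟩ := exists_top T.tr hZ
  obtain ⟨y, hy⟩ : ∃ y : ℕ → ℤ, ∀ i, y i = bt x (D - i • pol k x) - 1 := ⟨_, fun _ => rfl⟩
  obtain ⟨u, hu⟩ : ∃ u : ℕ → ℤ, ∀ l, u l = bt x (κ - (m + 1) • D - l • pol k x) - 1 :=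
    ⟨_, fun _ => rfl⟩
  have dec : ∀ (H : Div k K) (i : ℕ), bt x (H - (i + 1) • pol k x) ≤ bt x (H - i • pol k x) :=
    fun H i => bt_mono T.tr (sub_le_sub_left (nsmul_le_nsmul_left (pol_nonneg x) i.le_succ) H)
  have sy : ∑ i ∈ Finset.range (w + 1), y i = r - w := by
    have h0 : ll (D - (w + 1) • pol k x) = 0 := by
      have := (hw (w + 1)).not.2 (by omega); omega
    simp only [hy]
    rw [Finset.sum_sub_distrib, sum_bt, h0, hr]
    simp
  have su : ∑ l ∈ Finset.range (t + 1), u l = ζ - t - 1 := by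
    have h0 : ll (κ - (m + 1) • D - (t + 1) • pol k x) = 0 := by
      have := (ht (t + 1)).not.2 (by omega); omega
    simp only [hu]
    rw [Finset.sum_sub_distrib, sum_bt, h0, hζ]
    simp
    ring
  have it : ∀ l ≤ t, ∀ i ≤ w, 0 < ll (κ - D - (m * i + l) • pol k x) ∧
      m * y i + u l + 1 ≤ bt x (κ - D - (m * i + l) • pol k x) := fun l hl i hi => by
    have := T.bt_iter ((hw i).2 hi) ((ht l).2 hl) m m.le_succ
    rw [Nat.add_sub_cancel_left, one_nsmul] at this
    refine ⟨this.1, ?_⟩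
    rw [hy, hu]
    linarith [this.2]
  have y0 : ∀ i ≤ w, 0 ≤ y i := fun i hi => by
    have := bt_pos T.tr ((hw i).2 hi); rw [hy]; omega
  have u0 : ∀ l ≤ t, 0 ≤ u l := fun l hl => by
    have := bt_pos T.tr ((ht l).2 hl); rw [hu]; omega
  have yw : y w ≤ y 0 := by
    rw [hy, hy]
    exact sub_le_sub_right
      (bt_mono T.tr (sub_le_sub_left (nsmul_le_nsmul_left (pol_nonneg x) w.zero_le) D)) 1
  have b1 : ((m : ℤ) + 1) * w + t ≤ τ := by
    have := (T.bt_iter ((hw w).2 le_rfl) ((ht t).2 le_rfl) (m + 1) le_rfl).1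
    rw [Nat.sub_self, zero_nsmul, sub_zero] at this
    exact_mod_cast hτ _ this
  have b2 : ((m : ℤ) + 1) * y 0 + u 0 + 2 ≤ n := by
    have h1 := (T.bt_iter ((hw 0).2 w.zero_le) ((ht 0).2 t.zero_le) (m + 1) le_rfl).2
    have h2 := T.bt_lt (H := κ) (by rw [sub_self]; exact ll_pos_of_nonneg le_rfl)
    rw [Nat.sub_self, zero_nsmul D, sub_zero, mul_zero, add_zero, zero_nsmul, sub_zero κ] at h1
    rw [hy, hu, zero_nsmul]
    push_cast at h1
    linarith
  have hp := path (w := w) (t := t) (y := y) (u := u)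
    (N := fun l i => mug x κ D (m * i + l) i + m * ∑ e ∈ Finset.range i, (y e + y (e + 1)) -
      m * ∑ e ∈ Finset.range w, (y e + y (e + 1)))
    (fun l hl i hi => by
      have := T.mug_left (it l hl.le i hi).1 ((hw i).2 hi)
      rw [← hy] at this
      rw [← add_assoc]
      linarith)
    (fun l hl i hi => by
      have h1 := T.mug_right (it l hl i hi.le).1 ((hw i).2 hi.le)
      have h2 := (it l hl i hi.le).2
      have e : m * (i + 1) + l = m * i + l + m := by ring
      have h3 := (it l hl (i + 1) hi).1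
      rw [e] at h3
      have h4 := T.mug_left_iter_gain m h3 ((hw (i + 1)).2 hi)
      rw [← hy] at h4
      rw [e, Finset.sum_range_succ]
      linarith)
    (fun i _ => by rw [hy, hy]; exact sub_le_sub_right (dec D i) 1)
    (fun l _ => by rw [hu, hu]; exact sub_le_sub_right (dec _ l) 1) y0 u0
    (by have := mug_ge (it t le_rfl w le_rfl).1 ((hw w).2 le_rfl); linarith)
  have m0 : mug x κ D (m * 0 + 0) 0 = (gn k K : ℤ) - ll (κ - D) - (r + 1) := by
    unfold mug
    simp only [mul_zero, add_zero, zero_nsmul, sub_zero]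
    rw [T.ll_eq, hr]
    push_cast
    ring
  simp only [m0, Finset.range_zero, Finset.sum_empty] at hp
  rw [sum_two_gain, sy, su] at hp
  have c1 : (m : ℤ) * y w ≤ m * y 0 := mul_le_mul_of_nonneg_left yw (Int.natCast_nonneg m)
  have c2 := y0 0 w.zero_le
  have c3 := u0 0 t.zero_le
  have c4 := Int.natCast_nonneg w
  have c5 := Int.natCast_nonneg t
  rcases hp with hp | hp | ⟨h1, h2, h3⟩
  · exact Or.inl (by linarith)
  · exact Or.inr (Or.inl (by linarith))
  · have c6 : (t : ℤ) + 1 ≤ w := by exact_mod_cast h1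
    refine Or.inr (Or.inr ⟨⟨w, (hw w).2 le_rfl, ?_⟩, by linarith, by linarith⟩)
    have := (ht w).not.2 (by omega)
    omega

end Pen

end Pool.Agent.Lib.MP_13404a_ag.UB
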