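import Pool.Agent.Lib.MP_13404a_ag.PD.Wedge
import Pool.Agent.Lib.MP_13404a_ag.PD.Gain

/-!
The case in which all lifts have many poles.
-/

open Module Submodule Function Finsupp
open scoped IntermediateField Polynomial

namespace Pool.Agent.Lib.MP_13404a_ag.UB

open Pool.Agent.Lib.MP_15f242_ag

variable {k K : Type} [Field k] [CharZero k] [Field K] [Algebra k K] [FF k K]
  {ι : Type} [Fintype ι] {δ : Derivation ℤ k k} {d : Derivation k K K} {v : Derivation ℤ K K}
  {c : K} {A F : (ι → k) →ₗ[k] K} {κ D : Div k K} {x : K} {n : ℕ}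

/-- By induction `2 ∑ i < N + 1, b (2 i) ≤ ∑ s < 2 N + 1, b s + b 0` with `bt_mono`;
`sum_bt`, `bt_nonneg`. -/
lemma two_sum_bt (hx : Transcendental k x) (H : Div k K) (N : ℕ) :
    2 * ∑ i ∈ Finset.range N, bt x (H - (2 * i) • pol k x) ≤ ll H + bt x H := by
  have key : ∀ N : ℕ, 2 * ∑ i ∈ Finset.range (N + 1), bt x (H - (2 * i) • pol k x) ≤
      ∑ s ∈ Finset.range (2 * N + 1), bt x (H - s • pol k x) + bt x H := fun N => by
    induction N with
    | zero => simp [two_mul]
    | succ N ih =>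
      have : bt x (H - (2 * (N + 1)) • pol k x) ≤ bt x (H - (2 * N + 1) • pol k x) :=
        bt_mono hx (sub_le_sub_left (nsmul_le_nsmul_left (pol_nonneg x) (by omega)) H)
      rw [Finset.sum_range_succ, show 2 * (N + 1) + 1 = 2 * N + 1 + 1 + 1 by ring,
        Finset.sum_range_succ _ (2 * N + 1 + 1), Finset.sum_range_succ _ (2 * N + 1),
        show 2 * N + 1 + 1 = 2 * (N + 1) by ring]
      omega
  have h1 := key N
  have h2 := bt_nonneg x (H - (2 * N) • pol k x)
  rw [Finset.sum_range_succ, sum_bt] at h1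
  omega

/-- Take `N ≥ j` with `ll (κ - D - N • P) = 0`; for each `i` either `ll (κ - D - i • P) = 0` or
`T.bt_add` and `bt_pos` give `bt x (κ - D - i • P) ≤ bt x (κ - (2 i) • P)`; `sum_bt`. -/
lemma Pen.tail_le (T : Pen κ x n)
    (h : ∀ i : ℕ, 0 < ll (κ - D - i • pol k x) → 0 < ll (D - i • pol k x)) (j : ℕ) : ∃ N : ℕ,
    ∑ i ∈ Finset.range j, bt x (κ - (2 * i) • pol k x) + ll (κ - D - j • pol k x) ≤
      ∑ i ∈ Finset.range N, bt x (κ - (2 * i) • pol k x) := by
  have h1 : ∀ i : ℕ, bt x (κ - D - i • pol k x) ≤ bt x (κ - (2 * i) • pol k x) := fun i => by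
    rcases Nat.eq_zero_or_pos (ll (κ - D - i • pol k x)) with h2 | h2
    · have := bt_nonneg x (κ - (2 * i) • pol k x)
      rw [bt, h2]
      omega
    have e : κ - D - i • pol k x + (D - i • pol k x) = κ - (2 * i) • pol k x := by
      rw [two_mul, add_nsmul]
      abel
    have h3 := T.bt_add h2 (h i h2) (by
      rw [e, sub_sub_cancel]
      exact ll_pos_of_nonneg (nsmul_nonneg (pol_nonneg x) _))
    have h4 := bt_pos T.tr (h i h2)
    rw [e] at h3
    omega
  have key : ∀ N : ℕ, ∑ i ∈ Finset.range j, bt x (κ - (2 * i) • pol k x) +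
      ll (κ - D - j • pol k x) ≤ ∑ i ∈ Finset.range (j + N), bt x (κ - (2 * i) • pol k x) +
        ll (κ - D - (j + N) • pol k x) := fun N => by
    induction N with
    | zero => simp
    | succ N ih =>
      have h2 := h1 (j + N)
      rw [bt, sub_sub _ _ (pol k x), ← succ_nsmul] at h2
      rw [← add_assoc, Finset.sum_range_succ]
      omega
  obtain ⟨N, hN⟩ := exists_ll_zero T.tr (κ - D)
  exact ⟨j + N, by simpa [hN (j + N) (by omega)] using key N⟩

/-- `levels_pen`; `2 (j - 1) ≤ τ`, `bt x κ + 1 ≤ n`, `two_sum_bt`. In the second case either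
`tail_le` applies, or there is `i` with `0 < ll (κ - D - i • P)` and `ll (D - i • P) = 0`; then
`(S.shift β).card_le_ll` and `T.gain` with `m = 0`, whose third case is excluded by `ll_mono`. -/
theorem Sys.case_a (S : Sys δ d v c A F) (hκ : IsK d κ) (T : Pen κ x n) {τ : ℕ}
    (hτ : ∀ j : ℕ, 0 < ll (κ - j • pol k x) → j ≤ τ)
    (h : ∀ (β : K) (D : Div k K), IsD (sh v β d) D → ll (κ - D) ≤ ll D) :
    2 * Fintype.card ι ≤ gn k K + 2 * n + 2 * τ := by
  obtain ⟨j, h1, h2⟩ := S.levels_pen hκ T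
  have n1 := T.one_le
  have h3 : 2 * j ≤ τ + 2 := by
    rcases j with _ | j
    · omega
    · have := hτ _ (h1 j j.lt_succ_self)
      omega
  have h4 := T.bt_lt (H := κ) (by simp [ll_zero])
  have h5 := fun N => two_sum_bt T.tr κ N
  rw [T.ll_eq] at h5
  rcases h2 with h2 | ⟨β, D, hD, h2⟩
  · have := h5 j
    omega
  by_cases h6 : ∀ i : ℕ, 0 < ll (κ - D - i • pol k x) → 0 < ll (D - i • pol k x)
  · obtain ⟨N, hN⟩ := T.tail_le h6 j
    have := h5 N
    omega
  push Not at h6
  obtain ⟨i, h6, h7⟩ := h6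
  have mono : ∀ (H : Div k K) {a b : ℕ}, a ≤ b → ll (H - b • pol k x) ≤ ll (H - a • pol k x) :=
    fun H a b hab => ll_mono (sub_le_sub_left (nsmul_le_nsmul_left (pol_nonneg x) hab) H)
  have h8 := mono (κ - D) i.zero_le
  rw [zero_smul, sub_zero] at h8
  have h9 := ll_pos_of_nonneg hD.nonneg
  obtain ⟨r, hr⟩ : ∃ r, ll D = r + 1 := ⟨ll D - 1, by omega⟩
  have h10 := (S.shift β).card_le_ll hκ hD
  have h11 := h β D hD
  have h12 := T.gain hτ hr 0 (by rw [zero_add, one_smul]; omega) rfl rfl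
  simp only [zero_add, one_smul] at h12
  rcases h12 with h12 | h12 | ⟨⟨i', h12, h13⟩, -⟩
  · push_cast at h12
    omega
  · push_cast at h12
    omega
  · rcases le_total i i' with h14 | h14
    · have := mono D h14
      omega
    · have := mono (κ - D) h14
      omega

end Pool.Agent.Lib.MP_13404a_ag.UB
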