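import Pool.Agent.Lib.MP_13404a_ag.PD.Str
import Pool.Agent.Lib.MP_13404a_ag.PD.Gain
import Pool.Agent.Lib.MP_13404a_ag.UB.CdF

/-!
The case of a lift with few poles.
-/

open Module Submodule Function Finsupp
open scoped IntermediateField Polynomial

namespace Pool.Agent.Lib.MP_13404a_ag.UB

open Pool.Agent.Lib.MP_15f242_ag

variable {k K : Type} [Field k] [CharZero k] [Field K] [Algebra k K] [FF k K]
  {ι : Type} [Fintype ι] {δ : Derivation ℤ k k} {d : Derivation k K K} {v : Derivation ℤ K K}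
  {c : K} {A F : (ι → k) →ₗ[k] K} {κ D : Div k K} {x : K} {n : ℕ}

theorem Sys.case_b (S : Sys δ d v c A F) (hκ : IsK d κ) (hD : IsD v D) (T : Pen κ x n) {τ : ℕ}
    (hτ : ∀ j : ℕ, 0 < ll (κ - j • pol k x) → j ≤ τ)
    (hu : ∀ P, 0 < D P → ∃ b : k, po P (x - algebraMap k K b) = -1) (h : ll D < ll (κ - D)) :
    2 * Fintype.card ι ≤ gn k K + 3 * n + 2 * τ := by
  classical
  have h1 : (1 : K) ∈ H0 (OD D) := mem_L.2 fun P => fil_of_mem (one_mem _) (hD.nonneg P)
  have h2 := ll_pos_of_nonneg hD.nonneg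
  obtain ⟨r, hr⟩ : ∃ r, ll D = r + 1 := ⟨ll D - 1, by omega⟩
  have n1 := T.one_le
  rcases Nat.eq_zero_or_pos r with rfl | r1
  · have h4 := S.cdf (W := ⊤) (fun _ _ => trivial) fun a _ => by
      obtain ⟨e, he⟩ := (finrank_eq_one_iff_of_nonzero' (⟨1, h1⟩ : H0 (OD D)) (by simp)).1 hr
        ⟨_, S.F_mem hD a⟩
      rw [show F a = e • (1 : K) from (congrArg Subtype.val he).symm]
      simp
    rw [finrank_top, finrank_fintype_fun_eq_card] at h4
    omega
  have h3 := ll_le_degree h2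
  have h4 : ∃ j : ℕ, ll (κ - (j + 2) • D) = 0 := by
    refine ⟨2 * gn k K, by_contra fun h5 => ?_⟩
    have h6 := degree_nonneg (Nat.pos_of_ne_zero h5)
    rw [map_sub, map_nsmul, hκ.degree_eq, nsmul_eq_mul] at h6
    push_cast at h6
    nlinarith
  obtain ⟨m, h5, h6⟩ : ∃ m : ℕ, ll (κ - (m + 2) • D) = 0 ∧ 0 < ll (κ - (m + 1) • D) := by
    refine ⟨Nat.find h4, Nat.find_spec h4, ?_⟩
    rcases h7 : Nat.find h4 with _ | m
    · rw [zero_add, one_smul]
      omega
    · exact Nat.pos_of_ne_zero (Nat.find_min h4 (m := m) (by omega))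
  have h7 := T.bt_add (H := κ - D) (H' := D) (by omega) h2 (by simp [ll_zero])
  have h8 := T.bt_lt (H := κ) (by simp [ll_zero])
  rw [sub_add_cancel] at h7
  have h9 := T.gain hτ hr m h6 rfl rfl
  have h10 := S.strings hκ hD T.tr hu hr m
  rw [h5] at h10
  by_cases h11 : r < ll (κ - (m + 1) • D)
  · zify at h11 ⊢
    rcases h9 with h9 | h9 | ⟨-, h9, h12⟩ <;> push_cast at h10 <;> nlinarith
  rcases m with _ | m
  · rw [zero_add, one_smul] at h11
    omega
  have h12 := S.strings hκ hD T.tr hu hr m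
  rw [show m + 2 = m + 1 + 1 from rfl] at h12
  have h14 : (1 : ℤ) ≤ ll (κ - (m + 1 + 1) • D) := by exact_mod_cast h6
  have h15 : (ll (κ - (m + 1 + 1) • D) : ℤ) ≤ r := by exact_mod_cast not_lt.1 h11
  zify
  rcases h9 with h9 | h9 | ⟨-, -, h9⟩ <;> push_cast at h9 <;> nlinarith

end Pool.Agent.Lib.MP_13404a_ag.UB
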