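import Pool.Agent.Lib.MP_13404a_ag.UB.Defs2

/-!
Maps from a curve to projective space, through function fields.
-/

open scoped IntermediateField

namespace Pool.Agent.Lib.MP_13404a_ag.UB

variable {k K : Type} [Field k] [Field K] [Algebra k K]

/-- `O` is the local ring of a point of the curve with function field `K`. -/
def IsPoint (O : Subalgebra k K) : Prop := O ≠ ⊤ ∧ ∀ x : K, x ∈ O ∨ x⁻¹ ∈ O

/-- The hyperplane `a` of the linear system `Ψ` does not contain the image of the point `O`. -/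
def Avoids (Ψ : Submodule k K) (O : Subalgebra k K) (a : K) : Prop :=
  a ∈ Ψ ∧ a ≠ 0 ∧ ∀ b ∈ Ψ, b / a ∈ O

/-- The linear system `Ψ` maps the curve to projective space, with degree at most `n`, without
ramification, and injectively outside a finite set of points. -/
structure Immersion (Ψ : Submodule k K) (n : ℕ) : Prop where
  fin : FiniteDimensional k Ψ
  deg : ∀ a ∈ Ψ, ∀ b ∈ Ψ, Transcendental k (b / a) → Module.finrank k⟮b / a⟯ K ≤ n
  imm : ∀ O, IsPoint O → ∃ a b, Avoids Ψ O a ∧ b ∈ Ψ ∧ (b / a)⁻¹ ∉ O ∧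
    ∀ f : K, f⁻¹ ∉ O → f / (b / a) ∈ O
  sep : {O | IsPoint O ∧ ∃ O', IsPoint O' ∧ O' ≠ O ∧ ∀ a, Avoids Ψ O a ↔ Avoids Ψ O' a}.Finite

end Pool.Agent.Lib.MP_13404a_ag.UB
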