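import Pool.Agent.Lib.MP_13404a_ag.UB.Gen

/-!
Derivations that move constants and fix finitely many functions.
-/

open Module Submodule Function Finsupp
open scoped IntermediateField Polynomial

namespace Pool.Agent.Lib.MP_13404a_ag.UB

open Pool.Agent.Lib.MP_15f242_ag

variable {k K : Type} [Field k] [CharZero k] [Field K] [Algebra k K] [FF k K] {x : K}

/-- The first half of the proof of `exists_def`, for the members of `T` in place of a basis. -/
lemma exists_def' (hx : Transcendental k x) (T : Finset K) : ∃ S : Finset k,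
    ∀ w : Derivation ℤ K K, w x = 0 → (∀ s ∈ S, w (algebraMap k K s) = 0) → ∀ f ∈ T, w f = 0 := by
  classical
  choose Ψ h1 h2 using fun f : K => UB.exists_sep hx f
  have h3 : ∀ a : Algebra.adjoin k {x}, ∃ p : k[X], Polynomial.aeval x p = a := fun a =>
    (Algebra.adjoin_singleton_eq_range_aeval k x).le a.2
  choose p hp using h3
  refine ⟨T.biUnion fun i => (Ψ i).support.biUnion fun n => (p ((Ψ i).coeff n)).coeffs,
    fun w hw hS i hi => ?_⟩
  have h5 : ∀ n, w (((Ψ i).map (algebraMap _ K)).coeff n) = 0 := fun n => by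
    rw [Polynomial.coeff_map]
    by_cases hn : n ∈ (Ψ i).support
    swap
    · rw [Polynomial.notMem_support_iff.1 hn, map_zero, map_zero]
    have h6 := der_eval_gen w ((p ((Ψ i).coeff n)).map (algebraMap k K)) (fun m => by
      rw [Polynomial.coeff_map]
      by_cases hm : (p ((Ψ i).coeff n)).coeff m = 0
      · rw [hm, map_zero, map_zero]
      · exact hS _ (Finset.mem_biUnion.2 ⟨i, hi,
          Finset.mem_biUnion.2 ⟨n, hn, Polynomial.coeff_mem_coeffs hm⟩⟩)) x
    rw [hw, mul_zero, Polynomial.eval_map_algebraMap, hp] at h6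
    exact h6
  have h7 := der_eval_gen w _ h5 i
  rw [Polynomial.derivative_map, Polynomial.eval_map_algebraMap, Polynomial.eval_map_algebraMap,
    h1, map_zero] at h7
  exact (mul_eq_zero.1 h7.symm).resolve_left (h2 i)

/-- As the first half of `exists_gp`, with the union of the sets of `exists_def` and `exists_def'`;
`Fintype.equivFin`. -/
theorem exists_ders [Uncountable k] (T : Finset K) (J : Type) [Fintype J] [DecidableEq J] :
    ∃ (c : J → k) (D : J → Derivation ℤ k k) (w : J → Derivation ℤ K K),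
      (∀ i a, w i (algebraMap k K a) = algebraMap k K (D i a)) ∧
      (∀ i j, D i (c j) = if i = j then 1 else 0) ∧ (∀ i, ∀ f ∈ T, w i f = 0) ∧
      ∀ i (Q : Pt k K), ∀ f ∈ Q.1, w i f ∈ Q.1 := by
  classical
  obtain ⟨x, hx⟩ := FF.ex (k := k) (K := K)
  obtain ⟨S, hS⟩ := exists_def hx
  obtain ⟨S', hS'⟩ := exists_def' hx T
  obtain ⟨c, D, hD0, hD⟩ := exists_dual_const (S ∪ S') (Fintype.card J)
  choose w hw hw' using fun i => exists_der_ext hx (D i)
  let e := Fintype.equivFin J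
  refine ⟨fun j => c (e j), fun i => D (e i), fun i => w (e i), fun i a => hw' _ a, fun i j => ?_,
    fun i => hS' _ (hw _) fun s hs => ?_, fun i Q f hf => ?_⟩
  · simp only [hD, e.apply_eq_iff_eq]
  · rw [hw', hD0 _ s (Finset.mem_union_right _ hs), map_zero]
  refine der_mem_of_stable (S := {g | g ∈ Q.1 ∧ w (e i) g = 0}) (fun a => ⟨_, hw' _ a⟩) ?_
    (fun g hg => hg.1) (fun g hg => by rw [hg.2]; exact zero_mem _) hf
  have h1 := hS (w (e i)) (hw _) fun s hs => by
    rw [hw', hD0 _ s (Finset.mem_union_left _ hs), map_zero]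
  refine eq_top_iff.2 (h1.ge.trans (IntermediateField.adjoin_le_iff.2 fun g hg => ?_))
  rcases Q.2.2 g with h | h
  · exact IntermediateField.subset_adjoin k _ ⟨h, hg⟩
  · refine (inv_mem_iff (x := g)).1 (IntermediateField.subset_adjoin k _ ⟨h, ?_⟩)
    rw [(w (e i)).leibniz_inv, show w (e i) g = 0 from hg, smul_zero]

omit [CharZero k] in
lemma pow_ders {Q : Pt k K} {π : K} (hπ : po Q π = -1) (m : ℕ) : π ^ m ∈ fil Q (-m) :=
  mem_fil_of (by rw [po_pow, hπ]; omega)

omit [CharZero k] in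
lemma split_ders {Q : Pt k K} {π : K} (hπ : po Q π = -1) (m : ℕ) {f : K} (hf : f ∈ fil Q (-m)) :
    ∃ u ∈ Q.1, f = π ^ m * u := by
  have h0 : π ^ m ≠ 0 := pow_ne_zero _ fun e => by
    rw [e] at hπ
    simp [po] at hπ
  refine ⟨(π ^ m)⁻¹ * f, ?_, (mul_inv_cancel_left₀ h0 f).symm⟩
  rw [← mem_fil_zero, ← mul_mem_fil_iff h0, mul_inv_cancel_left₀ h0, po_pow, hπ]
  simpa using hf

/-- Write `f = π ^ m * u` with `u ∈ Q.1`. -/
lemma der_fil_fix {w : Derivation ℤ K K} {Q : Pt k K} (h : ∀ f ∈ Q.1, w f ∈ Q.1) {π : K}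
    (hπ : po Q π = -1) (h0 : w π = 0) (m : ℕ) {f : K} (hf : f ∈ fil Q (-m)) :
    w f ∈ fil Q (-m) := by
  obtain ⟨u, hu, rfl⟩ := split_ders hπ m hf
  rw [w.leibniz, w.leibniz_pow, h0]
  simp only [smul_eq_mul, mul_zero, smul_zero, add_zero]
  exact fil_mul (pow_ders hπ m) (h u hu)

/-- Write `f = π ^ (m + 1) * u` with `u ∈ Q.1`. -/
lemma der_fil {w : Derivation ℤ K K} {Q : Pt k K} (h : ∀ f ∈ Q.1, w f ∈ Q.1) (m : ℕ) {f : K}
    (hf : f ∈ fil Q (-(m + 1))) : w f ∈ fil Q (-m) := by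
  obtain ⟨π, -, hπ⟩ := exists_po Q (-1)
  obtain ⟨u, hu, rfl⟩ := split_ders hπ (m + 1) (f := f) (by exact_mod_cast hf)
  have h1 : π ∈ Q.1 := mem_iff_po.2 (by omega)
  have h2 : w (π ^ (m + 1) * u) = π ^ m * (π * w u + u * ((m + 1 : ℕ) * w π)) := by
    rw [w.leibniz, w.leibniz_pow]
    simp only [smul_eq_mul, nsmul_eq_mul, Nat.add_sub_cancel]
    ring
  rw [h2]
  exact fil_mul (pow_ders hπ m) (add_mem (mul_mem h1 (h u hu))
    (mul_mem hu (mul_mem (natCast_mem _ _) (h π h1))))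

/-- With `f = π * u`, `g = π * u'`: modulo `π` one has `w f = u * w π`, `w g = u' * w π`,
`w' f = u * w' π`, `w' g = u' * w' π`, so `w f * w' g - w g * w' f` vanishes at `Q`. -/
lemma der_det {w w' : Derivation ℤ K K} {Q : Pt k K} (h : ∀ f ∈ Q.1, w f ∈ Q.1)
    (h' : ∀ f ∈ Q.1, w' f ∈ Q.1) {f g : K} (hf : f ∈ fil Q (-1)) (hg : g ∈ fil Q (-1)) :
    w f * w' g - w g * w' f ∈ fil Q (-1) := by
  obtain ⟨π, -, hπ⟩ := exists_po Q (-1)
  obtain ⟨u, hu, rfl⟩ := split_ders hπ 1 (f := f) (by exact_mod_cast hf)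
  obtain ⟨v, hv, rfl⟩ := split_ders hπ 1 (f := g) (by exact_mod_cast hg)
  have h1 : π ∈ Q.1 := mem_iff_po.2 (by omega)
  have h2 : w (π ^ 1 * u) * w' (π ^ 1 * v) - w (π ^ 1 * v) * w' (π ^ 1 * u) =
      π * (π * (w u * w' v - w v * w' u) + (w u * (v * w' π) + u * w π * w' v) -
        (w v * (u * w' π) + v * w π * w' u)) := by
    simp only [pow_one, Derivation.leibniz, smul_eq_mul]
    ring
  rw [h2]
  exact fil_mul (mem_fil_of hπ.le) (sub_mem (add_mem
    (mul_mem h1 (sub_mem (mul_mem (h u hu) (h' v hv)) (mul_mem (h v hv) (h' u hu))))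
    (add_mem (mul_mem (h u hu) (mul_mem hv (h' π h1))) (mul_mem (mul_mem hu (h π h1)) (h' v hv))))
    (add_mem (mul_mem (h v hv) (mul_mem hu (h' π h1))) (mul_mem (mul_mem hv (h π h1)) (h' u hu))))

variable (k) in
/-- The poles of `x` are simple, and every fibre has at most one ramification point, which is
simple. -/
structure Gx (x : K) : Prop where
  pole : ∀ Q : Pt k K, po Q x ≤ 1
  simple : ∀ (Q : Pt k K) (b : k), x - algebraMap k K b ∉ fil Q (-3)
  one : ∀ (Q Q' : Pt k K) (b : k), x - algebraMap k K b ∈ fil Q (-2) →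
    x - algebraMap k K b ∈ fil Q' (-2) → Q = Q'

end Pool.Agent.Lib.MP_13404a_ag.UB
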