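import Mathlib

/-!
The theorem of Cauchy and Davenport for a field extension without intermediate field.
-/

open Module Submodule

namespace Pool.Agent.Lib.MP_13404a_ag.UB

variable {L K : Type} [Field L] [Field K] [Algebra L K] [FiniteDimensional L K]

omit [FiniteDimensional L K] in
lemma finrank_mul_knes {e : K} (he : e ≠ 0) (W : Submodule L K) :
    finrank L (W.map (LinearMap.mulLeft L e)) = finrank L W :=
  (Submodule.equivMapOfInjective _ (mul_right_injective₀ he) W).finrank_eq.symm

lemma stable_knes (hp : ∀ E : IntermediateField L K, E = ⊥ ∨ E = ⊤) (U V : Submodule L K)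
    (hU : U ≠ ⊥) (h : ∀ e ∈ U, ∀ v ∈ V, e * v ∈ U) : U = ⊤ ∨ finrank L V ≤ 1 := by
  let S : Subalgebra L K :=
    { carrier := {f | ∀ u ∈ U, u * f ∈ U}
      mul_mem' := fun {a b} ha hb u hu => by rw [← mul_assoc]; exact hb _ (ha u hu)
      add_mem' := fun {a b} ha hb u hu => by rw [mul_add]; exact U.add_mem (ha u hu) (hb u hu)
      algebraMap_mem' := fun r u hu => by
        rw [mul_comm, ← Algebra.smul_def]; exact U.smul_mem r hu }
  let E : IntermediateField L K := S.toIntermediateField fun x hx =>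
    S.inv_mem_of_algebraic (x := ⟨x, hx⟩) (Algebra.IsAlgebraic.isAlgebraic x)
  have hE : ∀ f, f ∈ E ↔ ∀ u ∈ U, u * f ∈ U := fun _ => Iff.rfl
  rcases hp E with h1 | h1
  · right
    have h2 : V ≤ span L {(1 : K)} := fun v hv => by
      have h3 : v ∈ E := (hE v).2 fun u hu => h u hu v hv
      rw [h1, IntermediateField.mem_bot] at h3
      obtain ⟨r, rfl⟩ := h3
      exact mem_span_singleton.2 ⟨r, by rw [Algebra.smul_def, mul_one]⟩
    exact (finrank_mono h2).trans (finrank_span_singleton one_ne_zero).le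
  · left
    obtain ⟨u, hu, h0⟩ := (Submodule.ne_bot_iff U).1 hU
    refine eq_top_iff.2 fun x _ => ?_
    have h3 := (hE (u⁻¹ * x)).1 (h1 ▸ IntermediateField.mem_top) u hu
    rwa [mul_inv_cancel_left₀ h0] at h3

/-- Strong induction on `finrank V`, for all `U`, with `1 ∈ V`. If `finrank V ≤ 1` use `U ≤ U * V`.
If `V * e ≤ U` for all `e ∈ U`, the set of `f` with `f * U ≤ U` is a subalgebra, a field
(`Subalgebra.toIntermediateField'` or `IsField` of a finite domain, or
`Algebra.IsAlgebraic` and `Subalgebra.inv_mem_of_algebraic`) that contains `V`, not inside `⊥`,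
hence `⊤`, and `U = ⊤`. Otherwise take `e ∈ U` with `¬ V * e ≤ U` and replace `U` by
`U ⊔ V.map (mulLeft e)`, `V` by `V ⊓ U.comap (mulLeft e)` (Dyson): the product is inside `U * V`,
the sum of the dimensions is the same (`finrank_sup_add_finrank_inf_eq`), `finrank V` drops. -/
lemma cauchy_one (hp : ∀ E : IntermediateField L K, E = ⊥ ∨ E = ⊤) (U V : Submodule L K)
    (hU : U ≠ ⊥) (hV : (1 : K) ∈ V) : finrank L K ≤ finrank L (U * V : Submodule L K) ∨
      finrank L U + finrank L V ≤ finrank L (U * V : Submodule L K) + 1 := by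
  induction hn : finrank L V using Nat.strong_induction_on generalizing U V with
  | _ n ih =>
    subst hn
    have hle : U ≤ U * V := fun u hu => by simpa using mul_mem_mul hu hV
    by_cases h : ∀ e ∈ U, ∀ v ∈ V, e * v ∈ U
    · rcases stable_knes hp U V hU h with h1 | h1
      · left
        rw [← finrank_top L K, ← h1]
        exact finrank_mono hle
      · right
        exact Nat.add_le_add (finrank_mono hle) h1
    · push Not at h
      obtain ⟨e, he, v, hv, hev⟩ := h
      have he0 : e ≠ 0 := by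
        rintro rfl
        exact hev (by simp)
      have hlt : V ⊓ U.comap (LinearMap.mulLeft L e) < V :=
        lt_of_le_of_ne inf_le_left fun h => hev (h.ge hv).2
      have hsub : (U ⊔ V.map (LinearMap.mulLeft L e)) * (V ⊓ U.comap (LinearMap.mulLeft L e)) ≤
          U * V := by
        rw [Submodule.sup_mul]
        refine sup_le (mul_le.2 fun a ha b hb => mul_mem_mul ha hb.1) (mul_le.2 ?_)
        rintro _ ⟨a, ha, rfl⟩ b hb
        rw [LinearMap.mulLeft_apply, mul_right_comm]
        exact mul_mem_mul hb.2 ha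
      have hdim := finrank_sup_add_finrank_inf_eq U (V.map (LinearMap.mulLeft L e))
      rw [inf_comm U, map_inf_eq_map_inf_comap, finrank_mul_knes he0, finrank_mul_knes he0]
        at hdim
      have hm := finrank_mono hsub
      rcases ih _ (finrank_lt_finrank_of_lt hlt) (U ⊔ V.map (LinearMap.mulLeft L e)) _
        (fun h => hU (le_bot_iff.1 (le_sup_left.trans h.le))) (mem_inf.2 ⟨hV, by simpa using he⟩) rfl with
        h1 | h1
      · exact Or.inl (h1.trans hm)
      · right
        omega

/-- Scale `V` by the inverse of a non-zero member and `U` by this member. -/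
theorem cauchy (hp : ∀ E : IntermediateField L K, E = ⊥ ∨ E = ⊤) (U V : Submodule L K)
    (hU : U ≠ ⊥) (hV : V ≠ ⊥) : finrank L K ≤ finrank L (U * V : Submodule L K) ∨
      finrank L U + finrank L V ≤ finrank L (U * V : Submodule L K) + 1 := by
  obtain ⟨v, hv, h0⟩ := (Submodule.ne_bot_iff V).1 hV
  have h1 := cauchy_one hp U (V.map (LinearMap.mulLeft L v⁻¹)) hU ⟨v, hv, by simp [h0]⟩
  have h2 : U * V.map (LinearMap.mulLeft L v⁻¹) ≤ (U * V).map (LinearMap.mulLeft L v⁻¹) := by
    refine mul_le.2 ?_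
    rintro a ha _ ⟨b, hb, rfl⟩
    exact ⟨a * b, mul_mem_mul ha hb, by simp [mul_left_comm]⟩
  have h3 := finrank_mono h2
  rw [finrank_mul_knes (inv_ne_zero h0)] at h1 h3
  omega

/-- The determinant of two vectors. -/
def wedge {K : Type} [Field K] (p p' : K × K) : K := p.1 * p'.2 - p'.1 * p.2

/-- With `s ∈ U`, `wedge s s' ≠ 0`: `V = {f | f • s ∈ U}` contains `1`, `V'` is the image of `U`
under the `L`-linear map `wedge s ·`, whose kernel on `U` is `V • s` (a vector with `wedge s p = 0`
is a multiple of `s ≠ 0`), so `finrank U ≤ finrank V + finrank V'`; `V * V' ≤ Y` because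
`f * wedge s p = wedge (f • s) p`; `cauchy`. -/
theorem wedge_rank (hp : ∀ E : IntermediateField L K, E = ⊥ ∨ E = ⊤) (U : Submodule L (K × K))
    (Y : Submodule L K) (h : ∀ p ∈ U, ∀ p' ∈ U, wedge p p' ∈ Y) (hY : finrank L Y < finrank L K)
    (h0 : ∃ p ∈ U, ∃ p' ∈ U, wedge p p' ≠ 0) : finrank L U ≤ finrank L Y + 1 := by
  obtain ⟨s, hs, s', hs', hss⟩ := h0
  let φ : K × K →ₗ[L] K :=
    (LinearMap.mulLeft L s.1).comp (LinearMap.snd L K K) -
      (LinearMap.mulRight L s.2).comp (LinearMap.fst L K K)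
  have hφ : ∀ p, φ p = wedge s p := fun p => rfl
  let ψ : K →ₗ[L] K × K := (LinearMap.mulRight L s.1).prod (LinearMap.mulRight L s.2)
  have hψ : ∀ f, ψ f = (f * s.1, f * s.2) := fun f => rfl
  have h1 : (1 : K) ∈ U.comap ψ := by simpa [hψ] using hs
  have h2 : U.map φ ≠ ⊥ := (Submodule.ne_bot_iff _).2 ⟨_, ⟨s', hs', rfl⟩, hss⟩
  have h3 : U.map φ * U.comap ψ ≤ Y := by
    refine mul_le.2 ?_
    rintro _ ⟨p, hp', rfl⟩ f hf
    have := h _ hf p hp'
    rw [hψ] at this
    rw [hφ]
    refine (congrArg (· ∈ Y) ?_).mp this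
    simp only [wedge]
    ring
  have h4 : U ⊓ LinearMap.ker φ ≤ (U.comap ψ).map ψ := by
    rintro p ⟨hpU, hp0⟩
    have e0 : s.1 * p.2 - p.1 * s.2 = 0 := hp0
    have : ∃ f, ψ f = p := by
      by_cases a1 : s.1 = 0
      · have a2 : s.2 ≠ 0 := fun a2 => hss (by simp [wedge, a1, a2])
        refine ⟨p.2 / s.2, Prod.ext ?_ (div_mul_cancel₀ _ a2)⟩
        rw [a1, zero_mul, zero_sub, neg_eq_zero, mul_eq_zero] at e0
        rw [hψ, a1, mul_zero]
        exact (e0.resolve_right a2).symm
      · refine ⟨p.1 / s.1, Prod.ext (div_mul_cancel₀ _ a1) ?_⟩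
        show p.1 / s.1 * s.2 = p.2
        rw [div_mul_eq_mul_div, div_eq_iff a1]
        linear_combination -e0
    obtain ⟨f, rfl⟩ := this
    exact ⟨f, hpU, rfl⟩
  have h5 := (φ.domRestrict U).finrank_range_add_finrank_ker
  rw [LinearMap.range_domRestrict, LinearMap.ker_domRestrict, ← finrank_map_subtype_eq,
    map_comap_subtype] at h5
  have h6 := (finrank_mono h4).trans (finrank_map_le ψ _)
  have h7 := finrank_mono h3
  have h8 := cauchy_one hp _ _ h2 h1
  omega

end Pool.Agent.Lib.MP_13404a_ag.UB
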