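import Pool.Agent.Lib.MP_13404a_ag.UB.OrdL

/-!
Leading terms of iterated derivatives at a pole of the lift.
-/

open Module Submodule Function Finsupp
open scoped IntermediateField Polynomial

namespace Pool.Agent.Lib.MP_13404a_ag.UB

open Pool.Agent.Lib.MP_15f242_ag

variable {k K : Type} [Field k] [CharZero k] [Field K] [Algebra k K] [FF k K]
  {ι : Type} [Fintype ι] {δ : Derivation ℤ k k} {d : Derivation k K K} {v : Derivation ℤ K K}
  {c : K} {A F : (ι → k) →ₗ[k] K} {κ D : Div k K} {x : K} {n : ℕ}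

/-- The derivative of a form on the fibre along the lift. -/
def dl (v : Derivation ℤ K K) (c f : K) : K := v f + c * f

/-- Write `w = u * π ^ a` with a unit `u` and `a = - po P w` (as in `ord_of`); the difference is
`π ^ a * E u`, `Ord.mem`. -/
lemma Ord.lead {P : Pt k K} {E : Derivation ℤ K K} {m : ℤ} (h : Ord P E m) {π : K}
    (hπ : po P π = -1) (w : K) : E w + (po P w : K) * (E π / π) * w ∈ fil P (po P w + m) := by
  rcases eq_or_ne w 0 with rfl | w0
  · simp
  have h0 : π ≠ 0 := ne_zero_sys (P := P) (by omega)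
  have p0 : π ^ po P w ≠ 0 := zpow_ne_zero _ h0
  have hu : po P (w * π ^ po P w) = 0 := by
    rw [po_mul P w0 p0, po_zpow, hπ]
    ring
  have h1 := h.mem _ (mem_iff_po.2 hu.le)
  have h2 : (π ^ po P w)⁻¹ ∈ fil P (po P w) :=
    mem_fil_of (by rw [po_inv, po_zpow, hπ]; simp)
  have e : E w + (po P w : K) * (E π / π) * w = (π ^ po P w)⁻¹ * E (w * π ^ po P w) := by
    rw [E.leibniz, E.leibniz_zpow, zpow_sub_one₀ h0]
    simp only [smul_eq_mul, zsmul_eq_mul]
    field_simp
    ring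
  rw [e]
  exact mul_mem_fil h2 h1

omit [CharZero k] in
lemma int_mul_fil_lead {P : Pt k K} {m : ℤ} (a : ℤ) {w : K} (h : w ∈ fil P m) :
    (a : K) * w ∈ fil P m := (fil P m).smul_mem (⟨a, intCast_mem _ a⟩ : P.1) h

omit [CharZero k] in
lemma fil_cast_lead {P : Pt k K} {m m' : ℤ} {w w' : K} (h : w ∈ fil P m) (e : w' = w)
    (hm : m ≤ m') : w' ∈ fil P m' := e ▸ fil_mono P hm h

namespace Sys
variable (S : Sys δ d v c A F) (hκ : IsK d κ) (hD : IsD v D) {P : Pt k K} (hP : 0 < D P)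
include S hκ hD hP

/-- With `η = φ * d π`: `dl η = v φ * d π + φ * d (v π)` (`S.comm`); `Ord.lead` for `v` and `φ`
(`S.ord`) and for `d` and `v π` (`hκ P`, `d.restrictScalars ℤ`). If the order of `η` is larger than
`o`, the correction `(- po P φ - o) * (v π / π) * η` is small too. -/
lemma lead {π : K} (hπ : po P π = -1) (o : ℤ) {η : K} (h : η ∈ fil P (κ P - o)) :
    dl v c η - ((o - D P : ℤ) : K) * (v π / π) * η ∈ fil P (κ P - o + D P) := by
  rcases eq_or_ne η 0 with rfl | η0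
  · simp [dl]
  have h0 : π ≠ 0 := ne_zero_sys (P := P) (by omega)
  have hn : D P = po P (v π) := by have := hD P π hπ; omega
  have hpos : 0 < po P (v π) := hn ▸ hP
  have w0 : v π ≠ 0 := ne_zero_sys hpos.ne'
  obtain ⟨s0, hs⟩ := hκ.unif hπ
  obtain ⟨φ, rfl⟩ : ∃ φ, η = φ * d π := ⟨η / d π, by field_simp⟩
  have φ0 : φ ≠ 0 := left_ne_zero_of_mul η0
  have hφ : po P φ ≤ -o := by
    have := (mem_fil η0).1 h
    rw [po_mul P φ0 s0] at this
    omega
  have h1 := mul_mem_fil (Ord.lead (S.ord hπ hpos) hπ φ) (mem_fil_of hs.le)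
  have h2 : d (v π) + (po P (v π) : K) * (d π / π) * v π ∈ fil P (po P (v π) + κ P) :=
    Ord.lead (E := d.restrictScalars ℤ) (hκ P) hπ (v π)
  have h3 := mul_mem_fil (mem_fil_of (le_refl (po P φ))) h2
  have hε : v π / π ∈ fil P (D P + 1) := mem_fil_of (by
    rw [div_eq_mul_inv, po_mul P w0 (inv_ne_zero h0), po_inv]; omega)
  have h4 : ((po P φ + o : ℤ) : K) * (v π / π * (φ * d π)) ∈ fil P (κ P - o + D P) := by
    rcases hφ.eq_or_lt with e | e
    · rw [e]; simp
    · exact int_mul_fil_lead _ (fil_mono P (by omega) (mul_mem_fil hε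
        (mul_mem_fil (mem_fil_of (le_refl (po P φ))) (mem_fil_of hs.le))))
  refine fil_cast_lead (sub_mem (add_mem (fil_mono P (by omega) h1) (fil_mono P (by omega) h3)) h4)
    ?_ le_rfl
  rw [dl, v.leibniz, S.comm π, hn]
  simp only [smul_eq_mul]
  push_cast
  ring

/-- Let `σ ≠ 0`, `N = D P`, `o = κ P - po P σ`, `y = x - b`, `ε = v y / y` (pole order `N + 1`),
`Ξ l = dl^[l] (x σ) - x dl^[l] σ`, so `Ξ (l + 1) = dl (Ξ l) + v x * dl^[l] σ` and
`v x - ε y` is a constant. Define integers `p 0 = 1`, `p (l + 1) = (o - l (N + 1) - N) p l`,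
`s 0 = 0`, `s (l + 1) = (o + 1 - l (N + 1) - N) s l + p l`. By induction with `lead`:
`dl^[l] σ - p l ε ^ l σ ∈ fil P (κ P - o + l (N + 1) - 1)`, hence
`dl^[l] σ ∈ fil P (κ P - o + l (N + 1))`, and
`Ξ l - s l y ε ^ l σ ∈ fil P (κ P - o + l (N + 1) - 2)`. If `0 < s l` then `Ξ l` has pole order
exactly `κ P - o + l (N + 1) - 1`. By induction on `l ≤ j`: `2 N + l (N + 1) ≤ o`, `0 < p l`,
`0 < s (l + 1)`. -/
theorem string_order {b : k} (hx : po P (x - algebraMap k K b) = -1) {σ : K} (j : ℕ)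
    (h : ∀ l, 1 ≤ l → l ≤ j + 1 →
      (dl v c)^[l] (x * σ) - x * (dl v c)^[l] σ ∈ fil P (κ P - D P)) :
    σ ∈ fil P (κ P - (j + 2) * D P) := by
  rcases eq_or_ne σ 0 with rfl | σ0
  · exact zero_mem _
  have : CharZero K := charZero_of_injective_algebraMap (algebraMap k K).injective
  obtain ⟨y, hy⟩ : ∃ y, y = x - algebraMap k K b := ⟨_, rfl⟩
  rw [← hy] at hx
  have y0 : y ≠ 0 := ne_zero_sys (P := P) (by omega)
  have hn : D P = po P (v y) := by have := hD P y hx; omega
  have w0 : v y ≠ 0 := ne_zero_sys (P := P) (by omega)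
  have hl := fun o η => S.lead hκ hD hP hx o (η := η)
  obtain ⟨ε, hε⟩ : ∃ ε, ε = v y / y := ⟨_, rfl⟩
  rw [← hε] at hl
  have ε0 : ε ≠ 0 := hε ▸ div_ne_zero w0 y0
  have pε : po P ε = D P + 1 := by
    rw [hε, div_eq_mul_inv, po_mul P w0 (inv_ne_zero y0), po_inv]; omega
  have hvx : v x = ε * y + algebraMap k K (δ b) := by
    rw [hε, div_mul_cancel₀ _ y0, hy, map_sub, S.ext]; ring
  obtain ⟨o, ho⟩ : ∃ o, o = κ P - po P σ := ⟨_, rfl⟩
  generalize D P = N at *
  have pl : ∀ l : ℕ, po P (ε ^ l * σ) = κ P - o + l * (N + 1) := fun l => by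
    rw [po_mul P (pow_ne_zero l ε0) σ0, po_pow, pε, ho]; ring
  have fε : ε ∈ fil P (N + 1) := mem_fil_of pε.le
  have fy : y ∈ fil P (-1) := mem_fil_of hx.le
  have key : ∀ l : ℕ, l ≤ j + 1 → ∃ p s : ℤ, 0 < p ∧ 0 ≤ (o + 1 - l * (N + 1) - N) * s ∧
      (dl v c)^[l] σ - p * (ε ^ l * σ) ∈ fil P (κ P - o + l * (N + 1) - 1) ∧
      (dl v c)^[l] (x * σ) - x * (dl v c)^[l] σ - s * (y * (ε ^ l * σ)) ∈
        fil P (κ P - o + l * (N + 1) - 2) ∧ (l = 0 ∨ N - 1 + l * (N + 1) ≤ o) := by
    intro l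
    induction l with
    | zero => exact fun _ => ⟨1, 0, one_pos, by simp, by simp, by simp, .inl rfl⟩
    | succ l ih =>
      intro hl1
      obtain ⟨p, s, hp, hs, hA, hB, -⟩ := ih (by omega)
      have hh := h (l + 1) (by omega) hl1
      rw [iterate_succ_apply', iterate_succ_apply'] at hh ⊢
      generalize (dl v c)^[l] σ = T at *
      generalize (dl v c)^[l] (x * σ) = U at *
      have fl := mem_fil_of (pl l).le
      have fT : T ∈ fil P (κ P - (o - l * (N + 1))) :=
        fil_cast_lead (add_mem (fil_mono P (by omega) hA) (int_mul_fil_lead p fl)) (by ring)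
          (by omega)
      have fX : U - x * T ∈ fil P (κ P - (o + 1 - l * (N + 1))) :=
        fil_cast_lead (add_mem (fil_mono P (by omega) hB)
          (int_mul_fil_lead s (mul_mem_fil fy fl))) (by ring) (by omega)
      have e1 : ((l + 1 : ℕ) : ℤ) * (N + 1) = l * (N + 1) + N + 1 := by push_cast; ring
      have hB' : dl v c U - x * dl v c T -
          (((o + 1 - l * (N + 1) - N) * s + p : ℤ) : K) * (y * (ε ^ (l + 1) * σ)) ∈
          fil P (κ P - o + (l + 1 : ℕ) * (N + 1) - 2) := by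
        rw [e1]
        have a1 := hl _ _ fX
        have a2 := int_mul_fil_lead (o + 1 - l * (N + 1) - N) (mul_mem_fil fε hB)
        have a3 := mul_fil (P.1.algebraMap_mem (δ b)) fT
        have a4 := mul_mem_fil (mul_mem_fil fε fy) hA
        refine fil_cast_lead (add_mem (add_mem (add_mem (fil_mono P (by omega) a1)
          (fil_mono P (by omega) a2)) (fil_mono P (by omega) a3)) (fil_mono P (by omega) a4))
          ?_ le_rfl
        simp only [dl, map_sub, v.leibniz, smul_eq_mul, hvx]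
        push_cast
        ring
      have ho' : N - 1 + (l + 1 : ℕ) * (N + 1) ≤ o := by
        by_contra hc
        have s0 : (((o + 1 - l * (N + 1) - N) * s + p : ℤ) : K) ≠ 0 :=
          Int.cast_ne_zero.2 (by omega)
        have l0 : ε ^ (l + 1) * σ ≠ 0 := mul_ne_zero (pow_ne_zero _ ε0) σ0
        have a1 := sub_mem (fil_mono P (by omega) hh) hB'
        rw [sub_sub_cancel, mem_fil (mul_ne_zero s0 (mul_ne_zero y0 l0)),
          po_mul P s0 (mul_ne_zero y0 l0), po_mul P y0 l0, pl, hx] at a1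
        have a2 : po P (((o + 1 - l * (N + 1) - N) * s + p : ℤ) : K) = 0 := by
          rw [← map_intCast (algebraMap k K)]; exact po_const P _
        omega
      refine ⟨(o - l * (N + 1) - N) * p, _, mul_pos (by omega) hp,
        mul_nonneg (by omega) (by omega), ?_, hB', .inr ho'⟩
      rw [e1]
      have a1 := hl _ _ fT
      have a2 := int_mul_fil_lead (o - l * (N + 1) - N) (mul_mem_fil fε hA)
      refine fil_cast_lead (add_mem (fil_mono P (by omega) a1) (fil_mono P (by omega) a2)) ?_ le_rfl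
      push_cast
      ring
  obtain ⟨-, -, -, -, -, -, h5⟩ := key (j + 1) le_rfl
  refine mem_fil_of ?_
  have h6 := h5.resolve_left (by omega)
  push_cast at h6
  have : (0 : ℤ) ≤ j := Int.natCast_nonneg j
  nlinarith

end Sys

end Pool.Agent.Lib.MP_13404a_ag.UB
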