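import Pool.Agent.Lib.MP_13404a_ag.PD.Ders
import Pool.Agent.Lib.MP_13404a_ag.PD.Defs

/-!
The generic pencil of a linear system.
-/

open Module Submodule Function Finsupp
open scoped IntermediateField Polynomial

namespace Pool.Agent.Lib.MP_13404a_ag.UB

open Pool.Agent.Lib.MP_15f242_ag

variable {k K : Type} [Field k] [CharZero k] [Field K] [Algebra k K] [FF k K] {x : K}

variable {Ψ : Submodule k K} {n : ℕ}

omit [CharZero k] in
lemma one_not_mem_pencil (Q : Pt k K) : (1 : K) ∉ fil Q (-1) := by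
  rw [mem_fil one_ne_zero, po_one]; omega

omit [CharZero k] in
lemma inv_mem_pencil {Q : Pt k K} {f : K} {m : ℤ} (h : f ∉ fil Q (-(m + 1))) : f⁻¹ ∈ fil Q m := by
  have h1 : ¬ po Q f ≤ -(m + 1) := fun e => h (mem_fil_of e)
  exact mem_fil_of (by rw [po_inv]; omega)

omit [CharZero k] in
lemma avoids_of_pencil {Q : Pt k K} {a l : K} (ha : Avoids Ψ Q.1 a) (hl : l ∈ Ψ)
    (h : l / a ∉ fil Q (-1)) : Avoids Ψ Q.1 l := by
  refine ⟨hl, fun e => h (by simp [e]), fun b hb => ?_⟩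
  have h1 : (l / a)⁻¹ ∈ Q.1 := mem_fil_zero.1 (inv_mem_pencil (m := 0) (by simpa using h))
  have := mul_mem (ha.2.2 b hb) h1
  rwa [inv_div, div_mul_div_cancel₀ ha.2.1] at this

omit [CharZero k] [FF k K] in
lemma span_const_pencil {I : Type} {ψ : I → K} (hψ : span k (Set.range ψ) = Ψ) (l : K)
    (F : Submodule k K) (h : ∀ i, ∃ e : k, ψ i / l - algebraMap k K e ∈ F) :
    ∀ b ∈ Ψ, ∃ e : k, b / l - algebraMap k K e ∈ F := by
  intro b hb
  rw [← hψ] at hb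
  induction hb using Submodule.span_induction with
  | mem b hb => obtain ⟨i, rfl⟩ := hb; exact h i
  | zero => exact ⟨0, by simp⟩
  | add a b _ _ ha hb =>
    obtain ⟨e, he⟩ := ha
    obtain ⟨e', he'⟩ := hb
    exact ⟨e + e', by convert add_mem he he' using 1; rw [map_add]; ring⟩
  | smul c a _ ha =>
    obtain ⟨e, he⟩ := ha
    exact ⟨c * e, by
      convert F.smul_mem c he using 1
      simp only [Algebra.smul_def, map_mul]; ring⟩

/-- `H.imm`; take `f` from `exists_po Q (-1)`. -/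
lemma Immersion.unif (H : Immersion Ψ n) (Q : Pt k K) :
    ∃ a b, Avoids Ψ Q.1 a ∧ b ∈ Ψ ∧ po Q (b / a) = -1 := by
  obtain ⟨a, b, ha, hb, h1, h2⟩ := H.imm Q.1 Q.2
  obtain ⟨f, f0, hf⟩ := exists_po Q (-1)
  have t0 : b / a ≠ 0 := fun e => h1 (by rw [e, inv_zero]; exact zero_mem _)
  have h3 := h2 f (by rw [mem_iff_po, po_inv]; omega)
  rw [mem_iff_po, po_inv] at h1
  rw [mem_iff_po, div_eq_mul_inv f, po_mul _ f0 (inv_ne_zero t0), po_inv] at h3
  exact ⟨a, b, ha, hb, by omega⟩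

/-- With `a, b` from `unif`, `l / a` and `a / l` are regular, so `po Q (b / l) = -1`; the constant
`e` vanishes (`const_eq_zero`). -/
lemma Immersion.not_const (H : Immersion Ψ n) {Q : Pt k K} {l : K} (hl : Avoids Ψ Q.1 l) :
    ¬ ∀ b ∈ Ψ, ∃ e : k, b / l - algebraMap k K e ∈ fil Q (-2) := by
  intro h
  obtain ⟨a, b, ha, hb, h1⟩ := H.unif Q
  obtain ⟨e, he⟩ := h b hb
  have h2 : b / l ∈ fil Q (-1) := by
    have := fil_mul (mem_fil_of h1.le) (hl.2.2 a ha.1)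
    rwa [div_mul_div_cancel₀ ha.2.1] at this
  have h3 : e = 0 := const_eq_zero (P := Q) (by
    simpa using sub_mem h2 (fil_mono Q (by omega) he))
  rw [h3, map_zero, sub_zero] at he
  have h4 := fil_mul he (ha.2.2 l hl.1)
  rw [div_mul_div_cancel₀ hl.2.1, mem_fil fun e => by simp [e, po] at h1] at h4
  omega

/-- If `b / l` is the constant `e b` modulo the maximal ideal, `b` avoids `Q` iff `e b ≠ 0`. -/
lemma avoids_iff {Q : Pt k K} {l a : K} (hl : Avoids Ψ Q.1 l) (ha : a ∈ Ψ) {e : k}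
    (h : a / l - algebraMap k K e ∈ fil Q (-1)) : Avoids Ψ Q.1 a ↔ e ≠ 0 := by
  refine ⟨fun h1 h2 => ?_, fun h1 => avoids_of_pencil hl ha fun h2 => h1 ?_⟩
  · rw [h2, map_zero, sub_zero] at h
    have := fil_mul h (h1.2.2 l hl.1)
    rw [div_mul_div_cancel₀ hl.2.1, div_self h1.2.1] at this
    exact one_not_mem_pencil Q this
  · exact const_eq_zero (P := Q) (by simpa using sub_mem h2 h)

/-- `ψ` a basis of `Ψ` indexed by `I`, `J = I ⊕ I`, `Z'` the union of `Z` and the points of `H.sep`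
(finite: `Set.Finite.preimage` under `Subtype.val`), `T` the `ψ i` and a uniformiser for each point
of `Z'`; `exists_ders T J`, `l₀ = ∑ c (inl i) • ψ i`, `l₁ = ∑ c (inr i) • ψ i`. All `w j` kill the
`ψ i`, and `w (inl i) l₀ = ψ i`, `w (inl i) l₁ = 0`, `w (inr i) l₁ = ψ i`, `w (inr i) l₀ = 0`. At
each `Q` some `ψ i` avoids `Q` (the one of largest pole order; `Ψ ≠ ⊥` by `unif`); call it `a`.
`l₀ / a ∉ fil Q (-2)` (`der_fil`: `w (inl i) (l₀ / a) = 1`), `l₀ / a ∉ fil Q (-1)` on `Z'`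
(`der_fil_fix`), not both `l₀ / a`, `l₁ / a` are in `fil Q (-1)` (`der_det`). So `l₀` or `l₁` avoids
`Q`, poles are simple, and `l₀` avoids `Q` if `x = l₁ / l₀ ∈ Q.1`. From
`w (inr i) (x - b) = ψ i / l₀ - D (inr i) b`: `x - b ∈ fil Q (-3)`, or `fil Q (-2)` on `Z'`,
contradicts `not_const`; `x - b ∈ fil Q (-2) ⊓ fil Q' (-2)` gives `Avoids Ψ Q.1 a ↔ Avoids Ψ Q'.1 a`
(`avoids_iff`), so `Q = Q'` or `Q ∈ Z'`. For the last part take `b` from `exists_res`. -/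
theorem Immersion.exists_pencil [Uncountable k] (H : Immersion Ψ n) (Z : Finset (Pt k K)) :
    ∃ l₀ ∈ Ψ, ∃ l₁ ∈ Ψ, l₀ ≠ 0 ∧ Gx k (l₁ / l₀) ∧
      (∀ ψ ∈ Ψ, ψ / l₀ ∈ H0 (OD (pol k (l₁ / l₀)))) ∧
      ∀ Q ∈ Z, ∃ b : k, po Q (l₁ / l₀ - algebraMap k K b) = -1 := by
  classical
  have := H.fin
  let B := Module.finBasis k Ψ
  let ψ : Fin (finrank k Ψ) → K := fun i => B i
  have hψ : span k (Set.range ψ) = Ψ := by
    have := congrArg (Submodule.map Ψ.subtype) B.span_eq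
    rwa [Submodule.map_span, ← Set.range_comp, Submodule.map_top, range_subtype] at this
  have hm : ∀ i, ψ i ∈ Ψ := fun i => (B i).2
  let Z' := Z ∪ (H.sep.preimage (f := (Subtype.val : Pt k K → Subalgebra k K))
    Subtype.val_injective.injOn).toFinset
  choose π π0 hπ using fun Q : Pt k K => exists_po Q (-1)
  obtain ⟨c, D, w, hw, hD, hT, hreg⟩ := exists_ders (k := k) (Finset.univ.image ψ ∪ Z'.image π)
    (Fin (finrank k Ψ) ⊕ Fin (finrank k Ψ))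
  have h0 : ∀ j i, w j (ψ i) = 0 := fun j i => hT j _ (by simp)
  have hz : ∀ j, ∀ Q ∈ Z', w j (π Q) = 0 := fun j Q hQ =>
    hT j _ (Finset.mem_union_right _ (Finset.mem_image_of_mem _ hQ))
  have hs : ∀ j (u : Fin (finrank k Ψ) → Fin (finrank k Ψ) ⊕ Fin (finrank k Ψ)),
      w j (∑ i, c (u i) • ψ i) = ∑ i, if j = u i then ψ i else 0 := fun j u => by
    rw [map_sum]
    refine Finset.sum_congr rfl fun i _ => ?_
    rw [Algebra.smul_def, (w j).leibniz, h0, hw, hD]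
    split_ifs <;> simp
  obtain ⟨l₀, e₀⟩ : ∃ l, l = ∑ i, c (.inl i) • ψ i := ⟨_, rfl⟩
  obtain ⟨l₁, e₁⟩ : ∃ l, l = ∑ i, c (.inr i) • ψ i := ⟨_, rfl⟩
  have m₀ : l₀ ∈ Ψ := e₀ ▸ sum_mem fun i _ => Ψ.smul_mem _ (hm i)
  have m₁ : l₁ ∈ Ψ := e₁ ▸ sum_mem fun i _ => Ψ.smul_mem _ (hm i)
  have d00 : ∀ i, w (.inl i) l₀ = ψ i := fun i => by simp [e₀, hs]
  have d01 : ∀ i, w (.inl i) l₁ = 0 := fun i => by simp [e₁, hs]
  have d10 : ∀ i, w (.inr i) l₀ = 0 := fun i => by simp [e₀, hs]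
  have d11 : ∀ i, w (.inr i) l₁ = ψ i := fun i => by simp [e₁, hs]
  have hav : ∀ Q : Pt k K, ∃ i, Avoids Ψ Q.1 (ψ i) := fun Q => by
    obtain ⟨a, -, ha, -⟩ := H.unif Q
    by_contra h
    have h1 : Ψ ≤ ((fil Q (-1)).restrictScalars k).comap (LinearMap.mulRight k a⁻¹) := by
      refine hψ.ge.trans (span_le.2 ?_)
      rintro _ ⟨i, rfl⟩
      by_contra h2
      exact h ⟨i, avoids_of_pencil ha (hm i) fun h3 => h2 (by simpa [div_eq_mul_inv] using h3)⟩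
    exact one_not_mem_pencil Q (by simpa [ha.2.1] using h1 ha.1)
  choose i hi using hav
  have q0 : ∀ Q, w (.inl (i Q)) (l₀ / ψ (i Q)) = 1 := fun Q => by
    rw [(w _).leibniz_div_const _ _ (h0 _ _), d00, smul_eq_mul, inv_mul_cancel₀ (hi Q).2.1]
  have q1 : ∀ Q, w (.inr (i Q)) (l₁ / ψ (i Q)) = 1 := fun Q => by
    rw [(w _).leibniz_div_const _ _ (h0 _ _), d11, smul_eq_mul, inv_mul_cancel₀ (hi Q).2.1]
  have n2 : ∀ Q, l₀ / ψ (i Q) ∉ fil Q (-(1 + 1)) := fun Q h =>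
    one_not_mem_pencil Q (q0 Q ▸ der_fil (hreg _ Q) 1 h)
  have l0 : l₀ ≠ 0 := fun e => n2 (Classical.arbitrary _) (by simp [e])
  have a0 : ∀ Q : Pt k K, l₁ / l₀ ∈ Q.1 → Avoids Ψ Q.1 l₀ := fun Q hx =>
    avoids_of_pencil (hi Q) m₀ fun h => by
      have h1 := mul_fil hx h
      rw [div_mul_div_cancel₀ l0] at h1
      have h2 := der_det (hreg (.inl (i Q)) Q) (hreg (.inr (i Q)) Q) h h1
      rw [q0, q1, (w _).leibniz_div_const _ _ (h0 _ _), d01] at h2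
      exact one_not_mem_pencil Q (by simpa using h2)
  have p1 : ∀ (Q : Pt k K), ∀ b ∈ Ψ, b / l₀ ∈ fil Q 1 := fun Q b hb => by
    have := mul_fil ((hi Q).2.2 b hb) (inv_mem_pencil (n2 Q))
    rwa [inv_div, div_mul_div_cancel₀ (hi Q).2.1] at this
  have key : ∀ j (b : k), w (.inr j) (l₁ / l₀ - algebraMap k K b)
      = ψ j / l₀ - algebraMap k K (D (.inr j) b) := fun j b => by
    rw [map_sub, hw, (w _).leibniz_div_const _ _ (d10 j), d11, smul_eq_mul, div_eq_inv_mul]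
  have a1 : ∀ (Q : Pt k K) (b : k) (m : ℤ), m ≤ 0 → l₁ / l₀ - algebraMap k K b ∈ fil Q m →
      Avoids Ψ Q.1 l₀ := fun Q b m hm h => a0 Q (by
    simpa using add_mem (mem_of_fil h hm) (Q.1.algebraMap_mem b))
  have z2 : ∀ Q ∈ Z', ∀ b : k, l₁ / l₀ - algebraMap k K b ∉ fil Q (-2) := fun Q hQ b h =>
    H.not_const (a1 Q b _ (by omega) h) (span_const_pencil hψ l₀
      ((fil Q (-2)).restrictScalars k) fun j =>
        ⟨_, key j b ▸ der_fil_fix (hreg _ Q) (hπ Q) (hz _ Q hQ) 2 h⟩)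
  refine ⟨l₀, m₀, l₁, m₁, l0, ⟨fun Q => ?_, fun Q b h => ?_, fun Q Q' b h h' => ?_⟩,
    fun b hb => mem_L.2 fun Q => ?_, fun Q hQ => ?_⟩
  · by_cases h : l₁ / l₀ = 0
    · simp [h, po]
    · exact (mem_fil h).1 (p1 Q l₁ m₁)
  · exact H.not_const (a1 Q b _ (by omega) h) (span_const_pencil hψ l₀
      ((fil Q (-2)).restrictScalars k) fun j => ⟨_, key j b ▸ der_fil (hreg _ Q) 2 h⟩)
  · by_contra hne
    refine z2 Q (Finset.mem_union_right _ ((Set.Finite.mem_toFinset _).2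
      ⟨Q.2, Q'.1, Q'.2, fun e => hne (Subtype.ext e.symm), fun a => ?_⟩)) b h
    by_cases ha : a ∈ Ψ
    · obtain ⟨e, he, he'⟩ := span_const_pencil hψ l₀ ((fil Q (-1)).restrictScalars k ⊓
        (fil Q' (-1)).restrictScalars k) (fun j => ⟨D (.inr j) b, by
          rw [← key]
          exact ⟨der_fil (hreg _ Q) 1 h, der_fil (hreg _ Q') 1 h'⟩⟩) a ha
      rw [avoids_iff (a1 Q b _ (by omega) h) ha he, avoids_iff (a1 Q' b _ (by omega) h') ha he']
    · exact ⟨fun h => (ha h.1).elim, fun h => (ha h.1).elim⟩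
  · rw [pol_apply]
    by_cases h : l₁ / l₀ ∈ Q.1
    · exact fil_of_mem ((a0 Q h).2.2 b hb) (le_max_right _ _)
    · rw [mem_iff_po] at h
      exact fil_mono Q (le_max_of_le_left (by omega)) (p1 Q b hb)
  · have hQ' : Q ∈ Z' := Finset.mem_union_left _ hQ
    have h1 : Avoids Ψ Q.1 l₀ := avoids_of_pencil (hi Q) m₀ fun h =>
      one_not_mem_pencil Q (q0 Q ▸ der_fil_fix (hreg _ Q) (hπ Q) (hz _ Q hQ') 1 h)
    obtain ⟨b, hb⟩ := exists_res one_ne_zero (po_one Q) (mem_fil_zero.2 (h1.2.2 l₁ m₁))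
    rw [← Algebra.algebraMap_eq_smul_one] at hb
    have h2 := z2 Q hQ' b
    have h3 : l₁ / l₀ - algebraMap k K b ≠ 0 := fun e => h2 (e ▸ zero_mem _)
    rw [mem_fil h3] at h2 hb
    exact ⟨b, by omega⟩

end Pool.Agent.Lib.MP_13404a_ag.UB
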