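import Pool.Agent.Lib.MP_13404a_ag.PD.Ders

/-!
A simply ramified function has no intermediate field.
-/

open Module Submodule Function Finsupp
open scoped IntermediateField Polynomial

namespace Pool.Agent.Lib.MP_13404a_ag.UB

open Pool.Agent.Lib.MP_15f242_ag

variable {k K : Type} [Field k] [CharZero k] [Field K] [Algebra k K] [FF k K] {x : K}

omit [CharZero k] in
/-- `mem_range_of_alg`, `G.simple` at any point. -/
lemma Gx.tr (G : Gx k x) : Transcendental k x := by
  intro h
  obtain ⟨c, hc⟩ := mem_range_of_alg h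
  obtain ⟨y, hy⟩ := FF.ex (k := k) (K := K)
  obtain ⟨P, -⟩ := exists_pole hy
  exact G.simple P c (by rw [hc, sub_self]; exact zero_mem _)

/-- Take `d` with `d x = 1` (`exists_der`) and `κ` with `IsK d κ`. If there is no such point then
`κ = -2 • pol k x`: at `Q` with `x ∈ Q.1` the function `x - b` is a uniformiser (`exists_res`), at a
pole `x⁻¹` is; `IsK.unif`. Compare `IsK.degree_eq` and `degree_pol`. -/
theorem hurwitz (hx : Transcendental k x) (h : 2 ≤ finrank k⟮x⟯ K) :
    ∃ Q : Pt k K, 2 ≤ po Q x ∨ ∃ b : k, x - algebraMap k K b ∈ fil Q (-2) := by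
  by_contra hn
  push Not at hn
  obtain ⟨d, hd⟩ := exists_der hx 1
  obtain ⟨κ, hκ, -⟩ := exists_isK_one hx hd
  have h0 : x ≠ 0 := fun e => hx (e ▸ isAlgebraic_zero)
  have h1 : κ = (-2 : ℤ) • pol k x := Finsupp.ext fun Q => by
    rw [Finsupp.smul_apply, pol_apply, smul_eq_mul]
    by_cases hQ : x ∈ Q.1
    · obtain ⟨c, hc⟩ := exists_res (P := Q) (n := 0) (t := 1) one_ne_zero (by simp [po])
        (mem_fil_zero.2 hQ)
      rw [Algebra.smul_def, mul_one] at hc
      have h2 := (hn Q).2 c
      have h3 : x - algebraMap k K c ≠ 0 := fun e => h2 (e ▸ zero_mem _)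
      rw [mem_fil h3] at hc h2
      have h4 := (hκ.unif (P := Q) (π := x - algebraMap k K c) (by omega)).2
      rw [map_sub, hd, d.map_algebraMap, sub_zero] at h4
      rw [← h4, max_eq_right (mem_iff_po.1 hQ)]
      simp [po]
    · rw [mem_iff_po] at hQ
      have h2 := (hn Q).1
      have h3 : po Q x = 1 := by omega
      have h4 := (hκ.unif (P := Q) (π := x⁻¹) (by rw [po_inv, h3])).2
      rw [d.leibniz_inv, hd, smul_eq_mul, mul_one, po, Valuation.map_neg, ← po, po_pow, po_inv,
        h3] at h4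
      rw [← h4, h3]
      rfl
  have h2 := hκ.degree_eq
  rw [h1, map_zsmul, degree_pol hx, smul_eq_mul] at h2
  omega

/-- `IntermediateField.mem_adjoin_simple_iff`; a polynomial `p ≠ 0` is `(X - C b) ^ m * q` with
`q.eval b ≠ 0`, and `aeval x q - q.eval b ∈ fil Q (-1)`, so `po Q (aeval x q) = 0`. -/
lemma dvd_po {Q : Pt k K} {b : k} (h : po Q (x - algebraMap k K b) < 0) {f : K} (hf : f ∈ k⟮x⟯) :
    po Q (x - algebraMap k K b) ∣ po Q f := by
  have h0 : x - algebraMap k K b ≠ 0 := fun e => by simp [e, po] at h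
  have h1 : x ∈ Q.1 := by
    have := add_mem (mem_iff_po.2 h.le) (Q.1.algebraMap_mem b)
    rwa [sub_add_cancel] at this
  have h2 : ∀ q : k[X], q.eval b ≠ 0 →
      Polynomial.aeval x q ≠ 0 ∧ po Q (Polynomial.aeval x q) = 0 := fun q hq => by
    obtain ⟨r, hr⟩ := Polynomial.X_sub_C_dvd_sub_C_eval (p := q) (a := b)
    have h3 : Polynomial.aeval x q =
        (x - algebraMap k K b) * Polynomial.aeval x r + algebraMap k K (q.eval b) := by
      have := congrArg (Polynomial.aeval x) hr
      simp only [map_sub, map_mul, Polynomial.aeval_X, Polynomial.aeval_C] at this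
      rw [← this, sub_add_cancel]
    have h4 : algebraMap k K (q.eval b) ≠ 0 := (_root_.map_ne_zero _).2 hq
    rw [h3]
    rcases eq_or_ne (Polynomial.aeval x r) 0 with e | e
    · rw [e, mul_zero, zero_add]
      exact ⟨h4, po_const _ _⟩
    · have h5 := mem_iff_po.1 (aeval_mem_cana h1 r)
      have h6 := po_add (P := Q) (mul_ne_zero h0 e) h4 (by rw [po_mul Q h0 e, po_const]; omega)
      exact ⟨h6.1, h6.2.trans (po_const _ _)⟩
  have h3 : ∀ p : k[X], po Q (x - algebraMap k K b) ∣ po Q (Polynomial.aeval x p) := fun p => by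
    rcases eq_or_ne p 0 with rfl | hp
    · simp [po]
    obtain ⟨q, hq, h4⟩ := Polynomial.exists_eq_pow_rootMultiplicity_mul_and_not_dvd p hp b
    rw [Polynomial.dvd_iff_isRoot] at h4
    rw [hq, map_mul, map_pow, map_sub, Polynomial.aeval_X, Polynomial.aeval_C,
      po_mul Q (pow_ne_zero _ h0) (h2 q h4).1, (h2 q h4).2, add_zero, po_pow]
    exact dvd_mul_left _ _
  obtain ⟨r, s, rfl⟩ := (IntermediateField.mem_adjoin_simple_iff k f).1 hf
  rcases eq_or_ne (Polynomial.aeval x r) 0 with e | e
  · simp [e, po]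
  rcases eq_or_ne (Polynomial.aeval x s) 0 with e' | e'
  · simp [e', po]
  rw [div_eq_mul_inv, po_mul Q e (inv_ne_zero e'), po_inv]
  exact dvd_add (h3 r) (h3 s).neg_right

/-- Take `z : E` not constant with a pole only at `R` (`riemann` for `single R m`, `L_zero`);
`degree_pol` on `E` and on `K`, `finrank_adjoin_tower`; the polar divisor of `z` on `K` is
`single Q (po R z)`. -/
lemma finrank_eq_one_of_unique {E : Type} [Field E] [Algebra k E] [Algebra E K]
    [IsScalarTower k E K] [FF k E] {R : Pt k E} {Q : Pt k K}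
    (h1 : ∀ Q' : Pt k K, res E Q' = R → Q' = Q) (h2 : ∀ f : E, po Q (algebraMap E K f) = po R f) :
    finrank E K = 1 := by
  classical
  have h3 : ¬ H0 (OD (single R (gn k E + 1 : ℤ))) ≤ H0 (OD (0 : Div k E)) := fun h => by
    have h4 : ll (single R (gn k E + 1 : ℤ)) ≤ ll (0 : Div k E) := finrank_mono h
    have h5 := riemann (single R (gn k E + 1 : ℤ))
    rw [degree_single, gen_eq] at h5
    rw [ll_zero] at h4
    omega
  obtain ⟨z, h4, h5⟩ := SetLike.not_le_iff_exists.1 h3
  rw [mem_L] at h4 h5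
  have h6 : ∀ P : Pt k E, P ≠ R → z ∈ P.1 := fun P hP => by
    have := h4 P
    rwa [single_eq_of_ne hP, mem_fil_zero] at this
  have h7 : 0 < po R z := not_le.1 fun h => h5 fun P => by
    rw [Finsupp.zero_apply, mem_fil_zero]
    rcases eq_or_ne P R with rfl | hP
    · exact mem_iff_po.2 h
    · exact h6 P hP
  have hz : Transcendental k z := trans_of_po h7.ne'
  have h8 : pol k z = single R (po R z) := Finsupp.ext fun P => by
    rw [pol_apply]
    rcases eq_or_ne P R with rfl | hP
    · rw [single_eq_same, max_eq_left h7.le]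
    · rw [single_eq_of_ne hP, max_eq_right (mem_iff_po.1 (h6 P hP))]
  have h9 : pol k (algebraMap E K z) = single Q (po R z) := Finsupp.ext fun P => by
    rw [pol_apply]
    rcases eq_or_ne P Q with rfl | hP
    · rw [single_eq_same, h2, max_eq_left h7.le]
    · rw [single_eq_of_ne hP, max_eq_right (mem_iff_po.1 (mem_res.1 (h6 _ (mt (h1 P) hP))))]
  have a1 := degree_pol hz
  have a2 := degree_pol (trans_up (K := K) hz)
  rw [h8, degree_single] at a1
  rw [h9, degree_single, finrank_adjoin_tower hz, Nat.cast_mul, ← a1] at a2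
  exact_mod_cast (mul_eq_right₀ h7.ne').1 a2.symm

lemma aux_prim {E : Type} [Field E] [Algebra k E] [Algebra E K] [IsScalarTower k E K] [FF k E]
    {y : E} (G : Gx k (algebraMap E K y)) (h4 : 2 ≤ finrank k⟮y⟯ E) : finrank E K = 1 := by
  have hy : Transcendental k y := (transcendental_algebraMap_iff (algebraMap E K).injective).1 G.tr
  obtain ⟨R, hR⟩ := hurwitz hy h4
  obtain ⟨Q, hQ⟩ := res_surj K R
  obtain ⟨e, he, h5⟩ := exists_e E Q
  rw [hQ] at h5
  rcases hR with hR | ⟨b, hb⟩
  · have h6 := h5 y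
    have := G.pole Q
    nlinarith
  have h6 : algebraMap E K y - algebraMap k K b ≠ 0 := fun h => G.simple Q b (h ▸ zero_mem _)
  have h7 : algebraMap E K (y - algebraMap k E b) = algebraMap E K y - algebraMap k K b := by
    rw [map_sub, ← IsScalarTower.algebraMap_apply]
  rw [mem_fil fun h => h6 (by rw [← h7, h, map_zero])] at hb
  have h8 : ∀ Q' : Pt k K, res E Q' = R →
      algebraMap E K y - algebraMap k K b ∈ fil Q' (-2) := fun Q' h => by
    obtain ⟨e', he', h9⟩ := exists_e E Q'
    rw [h] at h9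
    refine mem_fil_of ?_
    rw [← h7, h9]
    nlinarith
  have h9 : e = 1 := by
    have := G.simple Q b
    rw [mem_fil h6, ← h7, h5] at this
    by_contra hne
    have : 2 ≤ e := by omega
    nlinarith
  exact finrank_eq_one_of_unique (fun Q' h => G.one Q' Q b (h8 Q' h) (h8 Q hQ))
    fun f => by rw [h5, h9, one_mul]

lemma tower_prim {F K : Type} [Field F] [Field K] [Algebra F K] [FiniteDimensional F K]
    (E : IntermediateField F K) {n : ℕ} (hn : 0 < n) (h : finrank F K = finrank E K * n)
    (h' : 2 ≤ n → finrank E K = 1) : E = ⊥ ∨ E = ⊤ := by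
  rw [← Module.finrank_mul_finrank F E K, mul_comm] at h
  have h2 := Nat.eq_of_mul_eq_mul_left finrank_pos h
  rcases lt_or_ge n 2 with h4 | h4
  · exact Or.inl (IntermediateField.finrank_eq_one_iff.1 (by omega))
  · exact Or.inr (IntermediateField.finrank_eq_one_iff_eq_top.1 (h' h4))

/-- Let `E ≠ ⊥`, `E' = E.restrictScalars k`, `FF k E'` by `ff_sub`, `x' = ⟨x, _⟩ : E'`. Then
`2 ≤ finrank k⟮x'⟯ E'` (otherwise `finrank_adjoin_tower` gives `finrank k⟮x⟯ K = finrank E' K`, so
`E' = k⟮x⟯` by `IntermediateField.eq_of_le_of_finrank_le'`). Take `R` from `hurwitz` and `Q` above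
`R` (`res_surj`, `exists_e`); `G.pole`, `G.simple` give `e = 1` and `G.one` uniqueness, so
`finrank E' K = 1`. -/
theorem Gx.prim (G : Gx k x) (E : IntermediateField k⟮x⟯ K) : E = ⊥ ∨ E = ⊤ := by
  have hx := G.tr
  have h0 := FF.fin x hx
  have := FF.closed (k := k) (K := K)
  have : IsScalarTower k E K := IsScalarTower.of_algebraMap_eq fun _ => rfl
  obtain ⟨y, e⟩ : ∃ y : E, algebraMap E K y = x :=
    ⟨⟨x, E.algebraMap_mem ⟨x, IntermediateField.mem_adjoin_simple_self k x⟩⟩, rfl⟩
  have hy : Transcendental k y :=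
    (transcendental_algebraMap_iff (algebraMap E K).injective).1 (by rwa [e])
  have : FiniteDimensional k⟮algebraMap E K y⟯ K := by rwa [e]
  have := fd_down_sub (k := k) (K := K) y
  have : FiniteDimensional k⟮y⟯ E := FiniteDimensional.left k⟮y⟯ E K
  have : FF k E := ff_of_one hy
  have h1 := finrank_adjoin_tower (K := K) hy
  rw [e] at h1
  exact tower_prim E finrank_pos h1 (aux_prim (by rwa [e]))

end Pool.Agent.Lib.MP_13404a_ag.UB
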