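import Pool.Agent.Lib.MP_13404a_ag.PD.CaseA
import Pool.Agent.Lib.MP_13404a_ag.PD.CaseB
import Pool.Agent.Lib.MP_13404a_ag.PD.Pencil
import Pool.Agent.Lib.MP_13404a_ag.PD.Prim
import Pool.Agent.Lib.MP_13404a_ag.UB.St2

/-!
The bound in terms of the degree of a projective model.
-/

open Module Submodule Function Finsupp
open scoped IntermediateField Polynomial

namespace Pool.Agent.Lib.MP_13404a_ag.UB

open Pool.Agent.Lib.MP_15f242_ag

section
variable {k K : Type} [Field k] [CharZero k] [Field K] [Algebra k K] [FF k K]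
  {ι : Type} [Fintype ι] {δ : Derivation ℤ k k} {d : Derivation k K K} {v : Derivation ℤ K K}
  {c : K} {A F : (ι → k) →ₗ[k] K} {κ D : Div k K} {x : K} {n : ℕ}

theorem Immersion.exists_pen [Uncountable k] {Ψ : Submodule k K} (H : Immersion Ψ n)
    (hκ : IsK d κ) (Z : Finset (Pt k K)) : ∃ (x : K) (m : ℕ), m ≤ n ∧ Pen κ x m ∧
      (∀ j : ℕ, 0 < ll (κ - j • pol k x) → j ≤ m) ∧
      ∀ Q ∈ Z, ∃ b : k, po Q (x - algebraMap k K b) = -1 := by
  obtain ⟨l₀, h0, l₁, h1, l0, G, hL, hZ⟩ := H.exists_pencil Z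
  have hn := H.deg l₀ h0 l₁ h1 G.tr
  set x := l₁ / l₀
  have T : Pen κ x (finrank k⟮x⟯ K) := ⟨G.tr, G.prim, hκ.rr, rfl⟩
  refine ⟨x, _, hn, T, fun j hj => (Nat.le_add_right j 2).trans (T.top_le ?_ j hj), hZ⟩
  have h2 : 0 < ll κ :=
    hj.trans_le (ll_mono (sub_le_self κ (nsmul_nonneg (pol_nonneg x) j)))
  have h3 := bt_pos G.tr h2
  have h4 := T.bt_lt (H := κ) (by simp [ll_zero])
  obtain ⟨Q, h5 | ⟨b, h5⟩⟩ := hurwitz G.tr (by omega)
  · have := G.pole Q
    omega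
  have x0 : x - algebraMap k K b ≠ 0 := fun e => G.simple Q b (e ▸ zero_mem _)
  rw [mem_fil x0] at h5
  obtain ⟨ψ, h6, h7⟩ : ∃ ψ ∈ Ψ, ψ / l₀ ∉ k⟮x⟯ := by
    by_contra! h6
    obtain ⟨a, a', h7, h8, h9⟩ := H.unif Q
    have h10 := dvd_po (Q := Q) (b := b) (by omega) (div_mem (h6 a' h8) (h6 a h7.1))
    rw [div_div_div_cancel_right₀ l0, h9] at h10
    have := Int.le_of_dvd one_pos (neg_dvd.2 (dvd_neg.1 h10))
    omega
  have := FF.fin x G.tr
  have h8 : LinearIndependent k⟮x⟯ ![(1 : K), ψ / l₀] := by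
    rw [LinearIndependent.pair_iff' one_ne_zero]
    rintro a ha
    refine h7 ?_
    rw [← ha, IntermediateField.smul_def, smul_eq_mul, mul_one]
    exact a.2
  have h9 : span k⟮x⟯ (Set.range ![(1 : K), ψ / l₀]) ≤ span k⟮x⟯ (H0 (OD (pol k x)) : Set K) := by
    refine span_mono ?_
    rintro _ ⟨i, rfl⟩
    fin_cases i
    · simpa [l0] using hL l₀ h0
    · exact hL ψ h6
  have h10 := finrank_mono h9
  rw [finrank_span_eq_card h8, Fintype.card_fin] at h10
  rw [bt_eq_rank G.tr]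
  exact_mod_cast h10

theorem Sys.bound_pd [Uncountable k] (S : Sys δ d v c A F) {Ψ : Submodule k K}
    (H : Immersion Ψ n) : 2 * Fintype.card ι ≤ gn k K + 5 * n := by
  obtain ⟨κ, hκ⟩ := exists_isK S.d0
  by_cases h : ∀ (β : K) (D : Div k K), IsD (sh v β d) D → ll (κ - D) ≤ ll D
  · obtain ⟨x, m, h1, T, h2, -⟩ := H.exists_pen hκ ∅
    have := S.case_a hκ T h2 h
    omega
  push Not at h
  obtain ⟨β, D, hD, h⟩ := h
  obtain ⟨x, m, h1, T, h2, h3⟩ := H.exists_pen hκ D.support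
  have := (S.shift β).case_b hκ hD T h2 (fun P hP => h3 P (mem_support_iff.2 hP.ne')) h
  omega

end

variable {k K : Type} [Field k] [IsAlgClosed k] [Algebra ℂ k] [Field K] [Algebra k K] [Algebra ℂ K]
  [IsScalarTower ℂ k K]

theorem main_pd (δ : Derivation ℂ k k) (hδ : ∀ y, δ y = 0 → ∃ c : ℂ, y = algebraMap ℂ k c)
    (hK : ∃ x : K, Transcendental k x ∧ FiniteDimensional k⟮x⟯ K) (hn : ¬ Isotrivial k K)
    {Ψ : Submodule k K} {n : ℕ} (H : Immersion Ψ n) {q : ℕ}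
    (ω : Fin q → Ω[K⁄ℂ]) (hc : ∀ i, ClosedAlong K δ (ω i)) (hr : ∀ i, ω i ∈ regAlong ℂ k K)
    (hi : LinearIndependent k fun i => KaehlerDifferential.map ℂ k K K (ω i)) :
    2 * q ≤ finrank k (regAlong k k K) + 5 * n := by
  obtain ⟨x, hx, hf⟩ := hK
  have : FF k K := ff_of_one hx
  have : CharZero k := charZero_of_injective_algebraMap (algebraMap ℂ k).injective
  have : Uncountable k :=
    ((algebraMap ℂ k).injective.comp Complex.ofReal_injective).uncountable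
  obtain ⟨d, v, A, F, S⟩ := exists_sys' δ hδ hn ω hc hr hi
  have h := S.bound_pd H
  rwa [Fintype.card_fin, ← finrank_regAlong] at h

end Pool.Agent.Lib.MP_13404a_ag.UB
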