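import Pool.Agent.Lib.MP_13404a_ag.PD.Rank
import Pool.Agent.Lib.MP_13404a_ag.PD.Knes

/-!
Pencils without intermediate field.
-/

open Module Submodule Function Finsupp
open scoped IntermediateField Polynomial

namespace Pool.Agent.Lib.MP_13404a_ag.UB

open Pool.Agent.Lib.MP_15f242_ag

variable {k K : Type} [Field k] [CharZero k] [Field K] [Algebra k K] [FF k K] {x : K}
  {κ : Div k K} {n : ℕ}

/-- `x` is a function of degree `n` with no field between `k⟮x⟯` and `K`, and `κ` is canonical. -/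
structure Pen (κ : Div k K) (x : K) (n : ℕ) : Prop where
  tr : Transcendental k x
  prim : ∀ E : IntermediateField k⟮x⟯ K, E = ⊥ ∨ E = ⊤
  rr : ∀ H : Div k K, (ll H : ℤ) - ll (κ - H) = degree H + 1 - gn k K
  deg : finrank k⟮x⟯ K = n

namespace Pen
variable (T : Pen κ x n)
include T

omit [CharZero k] in
lemma ll_eq : ll κ = gn k K := by
  have := T.rr 0
  rw [ll_zero, sub_zero, map_zero] at this
  omega

omit [CharZero k] in
lemma one_le : 1 ≤ n := by
  have := FF.fin x T.tr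
  rw [← T.deg]
  exact finrank_pos

/-- `rr` at `H` and `H - P`: `bt x H = n - bt x (κ - H + P)`; `bt_pos`. -/
lemma bt_lt {H : Div k K} (h : 0 < ll (κ - H)) : bt x H + 1 ≤ n := by
  have h1 := T.rr H
  have h2 := T.rr (H - pol k x)
  have h3 : 0 < ll (κ - (H - pol k x)) :=
    h.trans_le (ll_mono (sub_le_sub_left (sub_le_self H (pol_nonneg x)) κ))
  have h4 := bt_pos T.tr h3
  have h5 := degree_pol T.tr
  rw [bt, show κ - (H - pol k x) - pol k x = κ - H by abel] at h4
  rw [map_sub, h5, T.deg] at h2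
  rw [bt]
  linarith

/-- `bt_eq_rank`, `cauchy`; the product of the spans is inside the span of `L (H + H')`
(`span_mul_span`, `mul_le_prd`). -/
lemma bt_add' {H H' : Div k K} (h : 0 < ll H) (h' : 0 < ll H') :
    n ≤ bt x (H + H') ∨ bt x H + bt x H' ≤ bt x (H + H') + 1 := by
  have := FF.fin x T.tr
  have h0 : ∀ G : Div k K, 0 < ll G → span k⟮x⟯ (H0 (OD G) : Set K) ≠ ⊥ := fun G hG e => by
    have h1 := bt_pos T.tr hG
    rw [bt_eq_rank T.tr, e, finrank_bot] at h1
    omega
  have h1 : span k⟮x⟯ (H0 (OD H) : Set K) * span k⟮x⟯ (H0 (OD H') : Set K) ≤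
      span k⟮x⟯ (H0 (OD (H + H')) : Set K) := by
    rw [span_mul_span]
    refine span_mono ?_
    rintro _ ⟨a, ha, b, hb, rfl⟩
    exact mul_le_prd H H' (mul_mem_mul ha hb)
  have h2 := finrank_mono h1
  have h3 := cauchy T.prim _ _ (h0 H h) (h0 H' h')
  rw [T.deg] at h3
  rw [bt_eq_rank T.tr, bt_eq_rank T.tr, bt_eq_rank T.tr]
  omega

lemma bt_add {H H' : Div k K} (h : 0 < ll H) (h' : 0 < ll H') (h3 : 0 < ll (κ - (H + H'))) :
    bt x H + bt x H' ≤ bt x (H + H') + 1 := by
  have h4 := T.bt_lt h3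
  have h5 := T.bt_add' h h'
  omega

/-- By induction `n ≤ bt x (j • P) ∨ j + 1 ≤ bt x (j • P)` (`bt_add'`, `bt_mono`); `bt_lt`. -/
lemma top_le (h : 2 ≤ bt x (pol k x)) (j : ℕ) (hj : 0 < ll (κ - j • pol k x)) : j + 2 ≤ n := by
  have h0 : ∀ i : ℕ, 0 < ll (i • pol k x) := fun i =>
    ll_pos_of_nonneg (nsmul_nonneg (pol_nonneg x) i)
  have h1 : ∀ i : ℕ, n ≤ bt x (i • pol k x) ∨ (i : ℤ) + 1 ≤ bt x (i • pol k x) := fun i => by
    induction i with
    | zero => exact Or.inr (by simpa using bt_pos T.tr (h0 0))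
    | succ i ih =>
      have h2 := T.bt_add' (h0 i) (ll_pos_of_nonneg (pol_nonneg x))
      have h3 : bt x (i • pol k x) ≤ bt x (i • pol k x + pol k x) :=
        bt_mono T.tr (le_add_of_nonneg_right (pol_nonneg x))
      rw [succ_nsmul]
      push_cast
      omega
  have h2 := T.bt_lt hj
  have h3 := h1 j
  omega

end Pen

end Pool.Agent.Lib.MP_13404a_ag.UB
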