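import Pool.Agent.Lib.MP_13404a_ag.UB.Prd

/-!
The rank of a space of sections over the field generated by a pencil.
-/

open Module Submodule Function Finsupp
open scoped IntermediateField Polynomial

namespace Pool.Agent.Lib.MP_13404a_ag.UB

open Pool.Agent.Lib.MP_15f242_ag

variable {k K : Type} [Field k] [CharZero k] [Field K] [Algebra k K] [FF k K] {x : K}

/-- The drop of the dimension along the polar divisor of `x`. -/
noncomputable def bt (x : K) (H : Div k K) : ℤ := (ll H : ℤ) - ll (H - pol k x)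

omit [CharZero k] [FF k K] in
lemma aeval_smul_mem_rank {X : Type} [AddCommGroup X] [Module K X] [Module k X]
    [IsScalarTower k K X] {y : K} {S : Submodule k X} (hS : ∀ z ∈ S, y • z ∈ S) (p : k[X]) {z : X}
    (hz : z ∈ S) : Polynomial.aeval y p • z ∈ S := by
  induction p using Polynomial.induction_on with
  | C a => simpa using S.smul_mem a hz
  | add p q hp hq => simpa [add_smul] using S.add_mem hp hq
  | monomial n a h =>
    have := hS _ h
    simp only [map_mul, map_pow, Polynomial.aeval_C, Polynomial.aeval_X, smul_smul] at this ⊢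
    convert this using 2
    ring

omit [CharZero k] [FF k K] in
lemma indep_rank {X : Type} [AddCommGroup X] [Module K X] [Module k X] [IsScalarTower k K X]
    {y : K} (h0 : y ≠ 0) (S : Submodule k X) (hS : ∀ z ∈ S, y • z ∈ S)
    {ι : Type} [Fintype ι] (z : ι → X) (hz : ∀ i, z i ∈ S)
    (h : ∀ c : ι → k, ∀ s ∈ S, ∑ i, c i • z i = y • s → ∀ i, c i = 0) :
    LinearIndependent k⟮y⟯ z := by
  have h1 : ∀ n (p : ι → k[X]), ∑ i, Polynomial.aeval y (p i) • z i = 0 →
      ∀ i, (p i).coeff n = 0 := by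
    have h2 : ∀ p : ι → k[X], ∑ i, Polynomial.aeval y (p i) • z i =
        y • ∑ i, Polynomial.aeval y (p i).divX • z i + ∑ i, (p i).coeff 0 • z i := fun p => by
      rw [Finset.smul_sum, ← Finset.sum_add_distrib]
      refine Finset.sum_congr rfl fun i _ => ?_
      conv_lhs => rw [← Polynomial.X_mul_divX_add (p i)]
      simp only [map_add, map_mul, Polynomial.aeval_X, Polynomial.aeval_C, add_smul, mul_smul,
        algebraMap_smul]
    have h3 : ∀ p : ι → k[X], ∑ i, Polynomial.aeval y (p i) • z i = 0 →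
        ∀ i, (p i).coeff 0 = 0 :=
      fun p hp => h _ _ (S.neg_mem (S.sum_mem fun i _ => aeval_smul_mem_rank hS (p i).divX (hz i)))
        (by
          rw [h2] at hp
          rw [smul_neg]
          exact eq_neg_of_add_eq_zero_right hp)
    intro n
    induction n with
    | zero => exact h3
    | succ n ih =>
      intro p hp i
      rw [← Polynomial.coeff_divX]
      refine ih (fun i => (p i).divX) ?_ i
      have h4 := h2 p
      simpa [hp, h3 p hp, h0] using h4.symm
  open scoped IntermediateField.algebraAdjoinAdjoin in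
  rw [← LinearIndependent.iff_fractionRing (Algebra.adjoin k {y}), Fintype.linearIndependent_iff]
  intro g hg i
  have h5 : ∀ i, ∃ p : k[X], Polynomial.aeval y p = g i := fun i =>
    (Algebra.adjoin_singleton_eq_range_aeval k y).le (g i).2
  choose p hp using h5
  have h6 : p i = 0 := Polynomial.ext fun n => h1 n p (by simp only [hp]; exact hg) i
  exact Subtype.ext (by rw [← hp, h6, map_zero]; rfl)

/-- Take `b` from `compl_bet W W'`. The `b s` are independent over `k⟮x⟯`: clear denominators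
(`LinearIndependent.iff_fractionRing`, or `IntermediateField.mem_adjoin_simple_iff`), let
`∑ aeval x (q s) • b s = 0` with all degrees `≤ e` and `w = ∑ (q s).coeff e • b s`. Then
`x • w = - ∑ l < e, (x⁻¹) ^ (e - 1 - l) • w l` with `w l ∈ W`; at a point `Q` either `x ∈ Q.1` or
`x⁻¹ ∈ Q.1`, so `x • w ∈ Λ Q`, `w ∈ W'` and the coefficients of degree `e` vanish; induct on `e`
(compare `indep_bet`). -/
theorem rank_step {X : Type} [AddCommGroup X] [Module K X] [Module k X] [IsScalarTower k K X]
    [FiniteDimensional K X] (hx : Transcendental k x) (Λ : Lat k K X) (W W' : Submodule k X)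
    [FiniteDimensional k W] [FiniteDimensional k W'] (hW : W ≤ H0 Λ)
    (h : ∀ w ∈ W, x • w ∈ H0 Λ → w ∈ W') :
    finrank k W ≤ finrank k W' + finrank k⟮x⟯ (span k⟮x⟯ (W : Set X)) := by
  obtain ⟨β, b, h1, h2, h3⟩ := compl_bet W W'
  have x0 : x ≠ 0 := fun e => hx (e ▸ isAlgebraic_zero)
  obtain ⟨S, hS⟩ : ∃ S : Submodule k X, ∀ z, z ∈ S ↔ ∀ P : Pt k K, x⁻¹ ∈ P.1 → z ∈ Λ P :=
    ⟨⨅ P : Pt k K, ⨅ _ : x⁻¹ ∈ P.1, (Λ P).restrictScalars k, fun z => by
      simp only [Submodule.mem_iInf, Submodule.restrictScalars_mem]⟩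
  have h4 := indep_rank (inv_ne_zero x0) S
    (fun z hz => (hS _).2 fun P hP => (Λ P).smul_mem ⟨x⁻¹, hP⟩ ((hS _).1 hz P hP)) b
    (fun s => (hS _).2 fun P _ => mem_H0.1 (hW (h2 s)) P) fun c f hf e => by
      have h5 : ∑ i, c i • b i ∈ W := sum_mem fun i _ => smul_mem _ _ (h2 i)
      refine h3 c (h _ h5 (mem_H0.2 fun P => ?_))
      rcases P.2.2 x with hP | hP
      · exact (Λ P).smul_mem ⟨x, hP⟩ (mem_H0.1 (hW h5) P)
      · rw [e, smul_inv_smul₀ x0]
        exact (hS _).1 hf P hP
  rw [adjoin_inv_rie] at h4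
  have := FF.fin x hx
  have : FiniteDimensional k⟮x⟯ X := Module.Finite.trans K X
  have h6 := finrank_span_eq_card h4
  rw [Fintype.card_fin] at h6
  have h7 : finrank k⟮x⟯ (span k⟮x⟯ (Set.range b)) ≤ finrank k⟮x⟯ (span k⟮x⟯ (W : Set X)) :=
    finrank_mono (span_mono (Set.range_subset_iff.2 h2))
  omega

/-- Pointwise: `pol_apply`, `po_mul`, `po_pow`. -/
lemma mem_sub_nsmul_pol {f : K} {H : Div k K} (s : ℕ) (h0 : f ∈ H0 (OD H))
    (h1 : x ^ s * f ∈ H0 (OD H)) : f ∈ H0 (OD (H - s • pol k x)) := by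
  refine mem_L.2 fun P => ?_
  rw [Finsupp.sub_apply, Finsupp.smul_apply, pol_apply, nsmul_eq_mul]
  rcases le_or_gt (po P x) 0 with hP | hP
  · rw [max_eq_right hP, mul_zero, sub_zero]
    exact mem_L.1 h0 P
  · have x0 : x ≠ 0 := fun e => (mem_iff_po.1 (e ▸ zero_mem P.1 : x ∈ P.1)).not_gt hP
    rw [max_eq_left hP.le, ← po_pow, ← mul_mem_fil_iff (pow_ne_zero s x0), sub_add_cancel]
    exact mem_L.1 h1 P

/-- `rank_step` with `Λ = OD H`, `mem_sub_nsmul_pol`. -/
lemma bt_le_rank (hx : Transcendental k x) (H : Div k K) :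
    bt x H ≤ finrank k⟮x⟯ (span k⟮x⟯ (H0 (OD H) : Set K)) := by
  have h := rank_step hx (OD H) (H0 (OD H)) (H0 (OD (H - pol k x))) le_rfl
    fun w hw hw' => mem_sub_pol hw' fun P _ => mem_L.1 hw P
  unfold bt ll
  omega

omit [CharZero k] in
lemma mul_mem_rank {f : K} {H : Div k K} (hf : f ∈ H0 (OD (H - pol k x))) :
    x * f ∈ H0 (OD H) := by
  refine mem_L.2 fun P => ?_
  have h1 := mul_mem_fil (mem_fil_of (le_max_left (po P x) 0)) (mem_L.1 hf P)
  rwa [Finsupp.sub_apply, pol_apply_bet, add_sub_cancel] at h1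

omit [CharZero k] [FF k K] in
lemma finrank_span_le_rank (F : IntermediateField k K) (C : Submodule k K)
    [FiniteDimensional k C] : finrank F (span F (C : Set K)) ≤ finrank k C := by
  let b := finBasis k C
  have h1 : C = span k (Set.range fun i => (b i : K)) := by
    have h2 := congrArg (Submodule.map C.subtype) b.span_eq
    rw [Submodule.map_span, Submodule.map_subtype_top, ← Set.range_comp] at h2
    exact h2.symm
  have h3 : span F (C : Set K) = span F (Set.range fun i => (b i : K)) := by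
    conv_lhs => rw [h1]
    exact Submodule.span_span_of_tower k F _
  rw [h3]
  exact (finrank_range_le_card (R := F) fun i => (b i : K)).trans (Fintype.card_fin _).le

/-- The intersection of `L H` and `x L H` is `x L (H - P)`; see the proof of `pencil`. -/
lemma finrank_pencil (hx : Transcendental k x) (H : Div k K) :
    (finrank k (H0 (OD H) ⊔ (H0 (OD H)).map (LinearMap.mulLeft k x) : Submodule k K) : ℤ) =
      ll H + bt x H := by
  have x0 : x ≠ 0 := fun e => hx (e ▸ isAlgebraic_zero)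
  have h1 := Submodule.finrank_sup_add_finrank_inf_eq (H0 (OD H))
    ((H0 (OD H)).map (LinearMap.mulLeft k x))
  have h3 : H0 (OD H) ⊓ (H0 (OD H)).map (LinearMap.mulLeft k x) =
      (H0 (OD (H - pol k x))).map (LinearMap.mulLeft k x) := by
    refine le_antisymm ?_ ?_
    · rintro _ ⟨hg, f, hf, rfl⟩
      exact ⟨f, mem_sub_pol hg fun P _ => mem_L.1 hf P, rfl⟩
    · rintro _ ⟨f, hf, rfl⟩
      exact ⟨mul_mem_rank hf, f, L_mono (sub_le_self _ (pol_nonneg x)) hf, rfl⟩
  rw [h3, finrank_map_bet x0, finrank_map_bet x0] at h1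
  unfold bt ll
  omega

/-- `degree_nonneg`, `degree_pol`, `finrank_pos`. -/
lemma exists_ll_zero (hx : Transcendental k x) (H : Div k K) :
    ∃ N : ℕ, ∀ i, N ≤ i → ll (H - i • pol k x) = 0 := by
  refine ⟨(degree H).toNat + 1, fun i hi => Nat.eq_zero_of_not_pos fun h => ?_⟩
  have h1 := degree_nonneg h
  rw [map_sub, map_nsmul, degree_pol hx, nsmul_eq_mul] at h1
  have h2 : 0 < finrank k⟮x⟯ K := by
    have := FF.fin x hx
    exact finrank_pos
  have h3 := Int.self_le_toNat (degree H)
  have h4 : i ≤ i * finrank k⟮x⟯ K := Nat.le_mul_of_pos_right i h2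
  zify at h4 hi
  omega

/-- `L (H - P) ⊔ x L (H - P) ≤ L H` has a complement `C` in `L H` of dimension
`bt x H - bt x (H - P)` (`finrank_pencil`), and the span of `L H` over `k⟮x⟯` is inside the sum of
the spans of `L (H - P)` and `C`. Induct on `N` with `ll (H - N • P) = 0`, for all `H`. -/
lemma rank_le_bt (hx : Transcendental k x) (H : Div k K) :
    (finrank k⟮x⟯ (span k⟮x⟯ (H0 (OD H) : Set K)) : ℤ) ≤ bt x H := by
  have := FF.fin x hx
  obtain ⟨N, hN⟩ := exists_ll_zero hx H
  have h0 := hN N le_rfl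
  clear hN
  induction N generalizing H with
  | zero =>
    rw [zero_smul, sub_zero] at h0
    have h1 := finrank_span_le_rank k⟮x⟯ (H0 (OD H))
    have h2 : ll (H - pol k x) ≤ ll H := ll_mono (sub_le_self _ (pol_nonneg x))
    unfold bt
    unfold ll at h0 h2 ⊢
    omega
  | succ N ih =>
    have h1 := ih (H - pol k x) (by rwa [sub_sub, ← succ_nsmul'])
    have h2 := finrank_pencil hx (H - pol k x)
    set A : Submodule k K :=
      H0 (OD (H - pol k x)) ⊔ (H0 (OD (H - pol k x))).map (LinearMap.mulLeft k x) with hA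
    have h3 : A ≤ H0 (OD H) := by
      refine sup_le (L_mono (sub_le_self _ (pol_nonneg x))) ?_
      rintro _ ⟨f, hf, rfl⟩
      exact mul_mem_rank hf
    obtain ⟨C, h4, h5⟩ := IsModularLattice.exists_disjoint_and_sup_eq h3
    have : FiniteDimensional k A := finiteDimensional_of_le h3
    have : FiniteDimensional k C := finiteDimensional_of_le (le_sup_right.trans h5.le)
    have h6 := Submodule.finrank_sup_add_finrank_inf_eq A C
    rw [h4.eq_bot, finrank_bot, h5] at h6
    have h7 : span k⟮x⟯ (H0 (OD H) : Set K) ≤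
        span k⟮x⟯ (H0 (OD (H - pol k x)) : Set K) ⊔ span k⟮x⟯ (C : Set K) := by
      refine span_le.2 fun f hf => ?_
      obtain ⟨a, ha, c, hc, rfl⟩ := mem_sup.1 (h5.ge hf)
      obtain ⟨b, hb, _, ⟨a', ha', rfl⟩, rfl⟩ := mem_sup.1 ha
      refine add_mem (mem_sup_left (add_mem (subset_span hb) ?_)) (mem_sup_right (subset_span hc))
      exact smul_mem _ (IntermediateField.AdjoinSimple.gen k x) (subset_span ha')
    have h8 := (finrank_mono h7).trans (finrank_add_le_finrank_add_finrank _ _)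
    have h9 := finrank_span_le_rank k⟮x⟯ C
    have h10 : ll H = finrank k (H0 (OD H)) := rfl
    unfold bt at h1 h2 ⊢
    omega

lemma bt_eq_rank (hx : Transcendental k x) (H : Div k K) :
    bt x H = finrank k⟮x⟯ (span k⟮x⟯ (H0 (OD H) : Set K)) :=
  (bt_le_rank hx H).antisymm (rank_le_bt hx H)

lemma bt_mono (hx : Transcendental k x) {H H' : Div k K} (h : H ≤ H') : bt x H ≤ bt x H' := by
  have := FF.fin x hx
  rw [bt_eq_rank hx, bt_eq_rank hx]
  exact Int.ofNat_le.2 (finrank_mono (span_mono (L_mono h)))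

lemma bt_nonneg (x : K) (H : Div k K) : 0 ≤ bt x H := by
  have h2 : ll (H - pol k x) ≤ ll H := ll_mono (sub_le_self _ (pol_nonneg x))
  unfold bt
  omega

lemma bt_pos (hx : Transcendental k x) {H : Div k K} (h : 0 < ll H) : 1 ≤ bt x H := by
  have := FF.fin x hx
  obtain ⟨f, f0, hf⟩ := exists_mem_L h
  have h1 : 1 ≤ finrank k⟮x⟯ (span k⟮x⟯ (H0 (OD H) : Set K)) :=
    Submodule.one_le_finrank_iff.2 fun e =>
      f0 ((Submodule.eq_bot_iff _).1 e f (subset_span ((mem_L' f0).2 hf)))
  rw [bt_eq_rank hx]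
  omega

lemma sum_bt (x : K) (H : Div k K) (N : ℕ) :
    ∑ i ∈ Finset.range N, bt x (H - i • pol k x) = (ll H : ℤ) - ll (H - N • pol k x) := by
  induction N with
  | zero => simp
  | succ N ih =>
    rw [Finset.sum_range_succ, ih, bt, sub_sub H, ← succ_nsmul]
    ring

/-- `finrank_mul_ge`, `mul_le_prd`. -/
lemma ll_add_ge {H H' : Div k K} (h : 0 < ll H) (h' : 0 < ll H') :
    ll H + ll H' ≤ ll (H + H') + 1 := by
  have h1 := finrank_mul_ge (H0 (OD H)) (H0 (OD H'))
    (fun e => by
      rw [ll, e, finrank_bot] at h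
      omega)
    (fun e => by
      rw [ll, e, finrank_bot] at h'
      omega)
  have h2 := finrank_mono (mul_le_prd H H')
  unfold ll
  omega

lemma ll_pos_of_nonneg {H : Div k K} (h : 0 ≤ H) : 0 < ll H := by
  have h1 := ll_mono h
  rw [ll_zero] at h1
  omega

lemma exists_top (hx : Transcendental k x) {H : Div k K} (h : 0 < ll H) :
    ∃ w : ℕ, ∀ i : ℕ, 0 < ll (H - i • pol k x) ↔ i ≤ w := by
  obtain ⟨N, hN⟩ := exists_ll_zero hx H
  refine ⟨Nat.findGreatest (fun i => 0 < ll (H - i • pol k x)) N, fun i => ⟨fun hi => ?_, fun hi => ?_⟩⟩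
  · refine Nat.le_findGreatest (not_lt.1 fun e => ?_) hi
    have := hN i e.le
    omega
  · have h1 := Nat.findGreatest_spec (P := fun i => 0 < ll (H - i • pol k x)) (Nat.zero_le N)
      (by simpa using h)
    exact h1.trans_le (ll_mono (sub_le_sub_left (nsmul_le_nsmul_left (pol_nonneg x) hi) H))

end Pool.Agent.Lib.MP_13404a_ag.UB
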