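import Pool.Agent.Lib.MP_13404a_ag.PD.Lead
import Pool.Agent.Lib.MP_13404a_ag.PD.Rank

/-!
Pairs of forms whose ratio is the pencil.
-/

open Module Submodule Function Finsupp
open scoped IntermediateField Polynomial

namespace Pool.Agent.Lib.MP_13404a_ag.UB

open Pool.Agent.Lib.MP_15f242_ag

variable {k K : Type} [Field k] [CharZero k] [Field K] [Algebra k K] [FF k K]
  {ι : Type} [Fintype ι] {δ : Derivation ℤ k k} {d : Derivation k K K} {v : Derivation ℤ K K}
  {c : K} {A F : (ι → k) →ₗ[k] K} {κ D : Div k K} {x : K} {n : ℕ}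

omit [CharZero k] [Fintype ι] in
lemma iter_add_str (l : ℕ) (a b : ι → k) :
    (nab δ)^[l] (a + b) = (nab δ)^[l] a + (nab δ)^[l] b := by
  induction l generalizing a b with
  | zero => rfl
  | succ l ih => rw [iterate_succ_apply, nab_add, ih, iterate_succ_apply, iterate_succ_apply]

omit [CharZero k] in
/-- Rank-nullity, twice. -/
lemma three_maps_str {V X Y Z : Type} [AddCommGroup V] [Module k V] [AddCommGroup X] [Module k X]
    [AddCommGroup Y] [Module k Y] [AddCommGroup Z] [Module k Z] [FiniteDimensional k V]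
    (f : V →ₗ[k] X) (g : V →ₗ[k] Y) (h : V →ₗ[k] Z) (WX : Submodule k X) (WY : Submodule k Y)
    (WZ : Submodule k Z) [FiniteDimensional k WX] [FiniteDimensional k WY]
    [FiniteDimensional k WZ] (hf : ∀ a, f a ∈ WX) (hg : ∀ a, g a ∈ WY)
    (hh : ∀ a, f a = 0 → g a = 0 → h a ∈ WZ) (inj : ∀ a, f a = 0 → h a = 0 → a = 0) :
    finrank k V ≤ finrank k WX + finrank k WY + finrank k WZ := by
  have h1 := f.finrank_range_add_finrank_ker
  have h2 := (g.domRestrict (LinearMap.ker f)).finrank_range_add_finrank_ker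
  have h3 : finrank k (LinearMap.range f) ≤ finrank k WX :=
    finrank_mono (by rintro _ ⟨a, rfl⟩; exact hf a)
  have h4 : finrank k (LinearMap.range (g.domRestrict (LinearMap.ker f))) ≤ finrank k WY :=
    finrank_mono (by rintro _ ⟨a, rfl⟩; exact hg a)
  have h5 : finrank k (LinearMap.ker (g.domRestrict (LinearMap.ker f))) ≤ finrank k WZ :=
    LinearMap.finrank_le_finrank_of_injective
      (f := ((h.domRestrict (LinearMap.ker f)).domRestrict
        (LinearMap.ker (g.domRestrict (LinearMap.ker f)))).codRestrict WZ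
        fun a => hh _ a.1.2 a.2)
      ((injective_iff_map_eq_zero _).2 fun a ha =>
        Subtype.ext (Subtype.ext (inj _ a.1.2 (congrArg Subtype.val ha))))
  omega

omit [CharZero k] [FF k K] in
lemma finrank_plane_str (hx : Transcendental k x) : finrank k (span k ({1, x} : Set K)) = 2 := by
  have h : LinearIndependent k ![(1 : K), x] := by
    refine (LinearIndependent.pair_iff' one_ne_zero).2 fun a ha => hx ?_
    rw [← ha, ← Algebra.algebraMap_eq_smul_one]
    exact isAlgebraic_algebraMap a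
  have := finrank_span_eq_card h
  rw [Matrix.range_cons, Matrix.range_cons, Matrix.range_empty, Set.union_empty] at this
  exact this

section
variable {U : ℕ → Submodule k (ι → k)} {U₁ : Submodule k (ι → k)}
  (hU : ∀ i, ∀ a ∈ U (i + 1), a ∈ U i ∧ a ∈ U₁ ∧ nab δ a ∈ U i)
include hU

omit [CharZero k] in
lemma iter_mem (l i : ℕ) : ∀ a ∈ U (i + l), (nab δ)^[l] a ∈ U i := by
  induction l with
  | zero => exact fun a ha => ha
  | succ l ih => exact fun a ha => ih _ (hU (i + l) a ha).2.2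

omit [CharZero k] in
/-- Induction on `l` for all `i`, `nab_smul`, `nab_add`. -/
lemma iter_smul (l i : ℕ) (s : k) : ∀ a ∈ U (i + l),
    (nab δ)^[l + 1] (s • a) - s • (nab δ)^[l + 1] a ∈ U i := by
  induction l with
  | zero =>
    intro a ha
    simpa [nab_smul] using (U i).smul_mem (δ s) ha
  | succ l ih =>
    intro a ha
    have h1 := ih _ (hU (i + l) a ha).2.2
    have h2 := iter_mem hU (l + 1) i _ ((U _).smul_mem (δ s) ha)
    rw [iterate_succ_apply (nab δ) (l + 1), iterate_succ_apply (nab δ) (l + 1), nab_smul,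
      iter_add_str, add_sub_assoc]
    exact add_mem h2 h1

end

omit [CharZero k] in
lemma iter_add (l : ℕ) (a b : ι → k) :
    (nab δ)^[l] (a + b) = (nab δ)^[l] a + (nab δ)^[l] b := iter_add_str l a b

namespace Sys
variable (S : Sys δ d v c A F) (hκ : IsK d κ) (hD : IsD v D) {U : ℕ → Submodule k (ι → k)}
  (hU : ∀ i, ∀ a ∈ U (i + 1), a ∈ U i ∧ a ∈ LinearMap.ker (d.toLinearMap ∘ₗ F) ∧ nab δ a ∈ U i)
include S hU

/-- `S.lie`, `iter_mem`. -/
lemma iter_lie (l i : ℕ) : ∀ a ∈ U (i + l), (dl v c)^[l] (A a) = A ((nab δ)^[l] a) := by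
  induction l with
  | zero => exact fun a _ => rfl
  | succ l ih =>
    intro a ha
    obtain ⟨-, h1, h2⟩ := hU (i + l) a ha
    have h3 : d (F a) = 0 := h1
    rw [iterate_succ_apply, iterate_succ_apply, dl, S.lie, h3, add_zero, ih _ h2]

include hκ hD in
/-- At `P` with `D P = 0` use `mem_K`. At `P` with `0 < D P` use `string_order`, `iter_lie`: for
`l ≤ j` both terms are in `L (κ - D)` (`mem_M`) and `x` is regular; for `l = j + 1`, `S.reg` shows
that the difference times `v π / d π` is regular. -/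
lemma string_mem (hu : ∀ P, 0 < D P → ∃ b : k, po P (x - algebraMap k K b) = -1) (j : ℕ)
    {a a' : ι → k} (ha : a ∈ U (j + 1)) (ha' : a' ∈ U (j + 1)) (h : A a' = x * A a)
    (h' : F ((nab δ)^[j + 1] a') - x * F ((nab δ)^[j + 1] a) ∈ span k {1, x}) :
    A a ∈ H0 (OD (κ - (j + 2) • D)) := by
  refine mem_L.2 fun P => ?_
  have e : (κ - (j + 2) • D) P = κ P - (j + 2) * D P := by simp
  rw [e]
  have h0 : 0 ≤ D P := hD.nonneg P
  rcases h0.eq_or_lt with hP | hP
  · rw [← hP, mul_zero, sub_zero]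
    exact mem_L.1 (S.mem_K hκ a) P
  obtain ⟨b, hb⟩ := hu P hP
  have hx : x ∈ P.1 := by
    have h1 : x - algebraMap k K b ∈ P.1 := mem_iff_po.2 (by omega)
    simpa using add_mem h1 (P.1.algebraMap_mem b)
  refine S.string_order hκ hD hP hb j fun l _ hl => ?_
  obtain ⟨i, hi⟩ : ∃ i, j + 1 = i + l := ⟨j + 1 - l, by omega⟩
  rw [← h, S.iter_lie hU l i a (hi ▸ ha), S.iter_lie hU l i a' (hi ▸ ha')]
  rcases i with _ | i
  · obtain rfl : l = j + 1 := by omega
    obtain ⟨π, -, hπ⟩ := exists_po P (-1)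
    obtain ⟨h1, h2⟩ := hκ.unif hπ
    have h3 := hD P π hπ
    have h4 : 0 < po P (v π) := by omega
    have v0 := ne_zero_sys h4.ne'
    obtain ⟨s, t, hst⟩ := mem_span_pair.1 h'
    have h5 : s • (1 : K) + t • x ∈ P.1 := add_mem (P.1.smul_mem (one_mem _) s) (P.1.smul_mem hx t)
    rw [hst] at h5
    rw [← mul_mem_fil_iff (div_ne_zero v0 h1), div_eq_mul_inv, po_mul P v0 (inv_ne_zero h1),
      po_inv, h2, h3, max_eq_left h4.le]
    refine fil_of_mem ?_ (by omega)
    convert add_mem (sub_mem h5 (S.reg P π hπ ((nab δ)^[j + 1] a')).2)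
      (mul_mem hx (S.reg P π hπ ((nab δ)^[j + 1] a)).2) using 1
    ring
  · have h1 := mem_L.1 (S.mem_M hκ hD (hU i _ (iter_mem hU l (i + 1) a (hi ▸ ha))).2.1) P
    have h2 := mem_L.1 (S.mem_M hκ hD (hU i _ (iter_mem hU l (i + 1) a' (hi ▸ ha'))).2.1) P
    exact sub_mem h2 (mul_fil hx h1)

end Sys

/-- `U` from `exists_chain` and `card_le_ker`. `B = (U (j + 1)).map A ≤ L (κ - D)`; the space `T` of
pairs `(a, a')` in `U (j + 1)` with `A a' = x * A a` is the kernel of a map to
`L (κ - D) ⊔ x L (κ - D)` (`finrank_pencil`). On `T` the map to `K ⧸ span {1, x}` given by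
`F (nab^[j + 1] a') - x * F (nab^[j + 1] a)` is linear (`iter_add`, `iter_smul` with `i = 1`,
`der_const`), its image is inside the image of `L D ⊔ x L D` (`F_mem`), which contains the plane
`span {1, x}`, and `(a, a') ↦ A a` is injective on `T` and maps the kernel into
`L (κ - (j + 2) • D)` (`string_mem`). -/
theorem Sys.strings (S : Sys δ d v c A F) (hκ : IsK d κ) (hD : IsD v D)
    (hx : Transcendental k x) (hu : ∀ P, 0 < D P → ∃ b : k, po P (x - algebraMap k K b) = -1)
    {r : ℕ} (hr : ll D = r + 1) (j : ℕ) :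
    2 * (Fintype.card ι : ℤ) ≤ (2 * j + 3) * r + ll (κ - D) + ll (κ - (j + 2) • D) +
      bt x (κ - D) + bt x D - 1 := by
  have h1 := S.card_le_ker hD
  obtain ⟨U, hU, hU'⟩ := exists_chain δ (LinearMap.ker (d.toLinearMap ∘ₗ F)) (r := r) (by omega)
  obtain ⟨N, hN⟩ : ∃ N : Submodule k K, N = span k {1, x} := ⟨_, rfl⟩
  have n1 : (1 : K) ∈ N := hN ▸ subset_span (by simp)
  have nx : x ∈ N := hN ▸ subset_span (by simp)
  have cst : ∀ (s : k) (a : U (j + 1)), ∃ e : k,
      F ((nab δ)^[j + 1] (s • a.1)) = s • F ((nab δ)^[j + 1] a.1) + e • (1 : K) := by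
    intro s a
    have h2 := iter_smul hU j (0 + 1) s a.1 (by rw [zero_add, add_comm]; exact a.2)
    obtain ⟨e, he⟩ := der_const S.d0 (hU 0 _ h2).2.1
    refine ⟨e, ?_⟩
    rw [← Algebra.algebraMap_eq_smul_one, ← he, map_sub, map_smul]
    abel
  let f : (U (j + 1) × U (j + 1)) →ₗ[k] K :=
    A ∘ₗ (U (j + 1)).subtype ∘ₗ LinearMap.snd k _ _ -
      LinearMap.mulLeft k x ∘ₗ A ∘ₗ (U (j + 1)).subtype ∘ₗ LinearMap.fst k _ _
  have hf : ∀ p, f p = A p.2.1 - x * A p.1.1 := fun _ => rfl
  let g : (U (j + 1) × U (j + 1)) →ₗ[k] K ⧸ N :=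
    { toFun := fun p => N.mkQ (F ((nab δ)^[j + 1] p.2.1) - x * F ((nab δ)^[j + 1] p.1.1))
      map_add' := fun p q => by
        rw [← map_add, Prod.fst_add, Prod.snd_add, Submodule.coe_add, Submodule.coe_add, iter_add,
          iter_add, map_add F, map_add F]
        congr 1
        ring
      map_smul' := fun s p => by
        obtain ⟨e, he⟩ := cst s p.1
        obtain ⟨e', he'⟩ := cst s p.2
        rw [RingHom.id_apply, ← map_smul, Prod.smul_fst, Prod.smul_snd, Submodule.coe_smul,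
          Submodule.coe_smul, he, he', mkQ_apply, mkQ_apply, Submodule.Quotient.eq]
        convert sub_mem (N.smul_mem e' n1) (N.smul_mem e nx) using 1
        simp only [Algebra.smul_def]
        ring }
  have hg : ∀ p, g p = N.mkQ (F ((nab δ)^[j + 1] p.2.1) - x * F ((nab δ)^[j + 1] p.1.1)) :=
    fun _ => rfl
  have one : (1 : K) ∈ H0 (OD D) := mem_L.2 fun P => fil_of_mem (one_mem _) (hD.nonneg P)
  obtain ⟨W, hW⟩ : ∃ W : Submodule k K,
      W = H0 (OD D) ⊔ (H0 (OD D)).map (LinearMap.mulLeft k x) := ⟨_, rfl⟩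
  have : FiniteDimensional k W := by rw [hW]; infer_instance
  have NW : N ≤ W := by
    rw [hN, hW, span_le]
    rintro _ (rfl | rfl)
    · exact mem_sup_left one
    · exact mem_sup_right ⟨1, one, mul_one _⟩
  have h2 := three_maps_str f g (A ∘ₗ (U (j + 1)).subtype ∘ₗ LinearMap.fst k _ _)
    (H0 (OD (κ - D)) ⊔ (H0 (OD (κ - D))).map (LinearMap.mulLeft k x))
    (LinearMap.range (N.mkQ.domRestrict W)) (H0 (OD (κ - (j + 2) • D)))
    (fun p => sub_mem (mem_sup_left (S.mem_M hκ hD (hU j _ p.2.2).2.1))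
      (mem_sup_right ⟨_, S.mem_M hκ hD (hU j _ p.1.2).2.1, rfl⟩))
    (fun p => ⟨⟨_, hW ▸ sub_mem (mem_sup_left (S.F_mem hD _))
      (mem_sup_right ⟨_, S.F_mem hD _, rfl⟩)⟩, (hg p).symm⟩)
    (fun p h3 h4 => S.string_mem hκ hD hU hu j p.1.2 p.2.2 (sub_eq_zero.1 ((hf p).symm.trans h3))
      (hN ▸ (Submodule.Quotient.mk_eq_zero N).1 ((hg p).symm.trans h4)))
    (fun p h3 h4 => by
      have h5 : A p.1.1 = 0 := h4
      rw [hf, h5, mul_zero, sub_zero] at h3
      exact Prod.ext (Subtype.ext (S.inj (h5.trans (map_zero A).symm)))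
        (Subtype.ext (S.inj (h3.trans (map_zero A).symm))))
  have h3 := (N.mkQ.domRestrict W).finrank_range_add_finrank_ker
  have h4 : LinearMap.ker (N.mkQ.domRestrict W) = N.comap W.subtype :=
    Submodule.ext fun a => Submodule.Quotient.mk_eq_zero _
  rw [h4, (comapSubtypeEquivOfLe NW).finrank_eq] at h3
  have h5 : finrank k N = 2 := hN ▸ finrank_plane_str hx
  have h6 := finrank_pencil hx D
  have h7 := finrank_pencil hx (κ - D)
  have h8 : (Fintype.card ι : ℤ) ≤ finrank k (U (j + 1)) + (j + 1) * r := by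
    exact_mod_cast hU' (j + 1)
  rw [← hW] at h6
  rw [finrank_prod] at h2
  have h9 : finrank k (H0 (OD (κ - (j + 2) • D))) = ll (κ - (j + 2) • D) := rfl
  have h10 : (2 * j + 3 : ℤ) * r = 2 * ((j + 1) * r) + r := by ring
  omega

end Pool.Agent.Lib.MP_13404a_ag.UB
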