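import Pool.Agent.Lib.MP_13404a_ag.PD.Pen
import Pool.Agent.Lib.MP_13404a_ag.UB.Sys

/-!
Levels of the space of forms along a pencil.
-/

open Module Submodule Function Finsupp
open scoped IntermediateField Polynomial

namespace Pool.Agent.Lib.MP_13404a_ag.UB

open Pool.Agent.Lib.MP_15f242_ag

variable {k K : Type} [Field k] [CharZero k] [Field K] [Algebra k K] [FF k K]
  {ι : Type} [Fintype ι] {δ : Derivation ℤ k k} {d : Derivation k K K} {v : Derivation ℤ K K}
  {c : K} {A F : (ι → k) →ₗ[k] K} {κ D : Div k K} {x : K} {n : ℕ}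

/-- The forms on the total space, given by their values on `d` and `v`, that are regular at `Q`. -/
def lam (d : Derivation k K K) (v : Derivation ℤ K K) : Lat k K (K × K) := fun Q =>
  { carrier := {p | ∀ π, po Q π = -1 → p.1 / d π ∈ Q.1 ∧ p.2 - p.1 * (v π / d π) ∈ Q.1}
    add_mem' := fun {a b} ha hb π hπ => ⟨by
      simpa [add_div] using add_mem (ha π hπ).1 (hb π hπ).1, by
      convert add_mem (ha π hπ).2 (hb π hπ).2 using 1
      simp only [Prod.fst_add, Prod.snd_add]
      ring⟩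
    zero_mem' := fun π _ => by simp
    smul_mem' := fun s p hp π hπ => ⟨by
      convert mul_mem s.2 (hp π hπ).1 using 1
      exact mul_div_assoc s.1 p.1 _, by
      convert mul_mem s.2 (hp π hπ).2 using 1
      change s.1 * p.2 - s.1 * p.1 * _ = _
      ring⟩ }

omit [CharZero k] in
lemma mem_lam_iff {Q : Pt k K} {p : K × K} : p ∈ lam d v Q ↔
    ∀ π, po Q π = -1 → p.1 / d π ∈ Q.1 ∧ p.2 - p.1 * (v π / d π) ∈ Q.1 := Iff.rfl

/-- The forms together with the form of the base that remain regular after multiplication by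
`x ^ j`. -/
noncomputable def lev (d : Derivation k K K) (v : Derivation ℤ K K) (A F : (ι → k) →ₗ[k] K) (x : K)
    (j : ℕ) : Submodule k (K × K) :=
  (LinearMap.range (A.prod F) ⊔ span k {(0, 1)}) ⊓ H0 (cm (x ^ j • LinearMap.id) (lam d v))

omit [CharZero k] [Fintype ι] in
/-- `mem_sup`, `mem_span_singleton`, `mem_H0`, `mem_cm`. -/
lemma mem_lev {j : ℕ} {p : K × K} : p ∈ lev d v A F x j ↔
    (∃ a, ∃ e : k, p = (A a, F a + algebraMap k K e)) ∧ x ^ j • p ∈ H0 (lam d v) := by
  rw [lev, mem_inf, mem_H0, mem_H0]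
  refine and_congr ?_ (forall_congr' fun P => by rw [mem_cm]; rfl)
  rw [mem_sup]
  constructor
  · rintro ⟨_, ⟨a, rfl⟩, z, hz, rfl⟩
    obtain ⟨e, rfl⟩ := mem_span_singleton.1 hz
    exact ⟨a, e, by simp [Algebra.smul_def]⟩
  · rintro ⟨a, e, rfl⟩
    exact ⟨_, ⟨a, rfl⟩, e • (0, 1), smul_mem _ _ (mem_span_singleton_self _),
      by simp [Algebra.smul_def]⟩

instance (j : ℕ) : FiniteDimensional k (lev d v A F x j) := by
  unfold lev
  infer_instance

lemma fst_mem_wedge (hκ : IsK d κ) {p : K × K} (h : p ∈ H0 (lam d v)) : p.1 ∈ H0 (OD κ) := by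
  refine mem_L.2 fun P => ?_
  obtain ⟨π, -, hπ⟩ := exists_po P (-1)
  obtain ⟨h1, h2⟩ := hκ.unif hπ
  simpa [h1] using mul_fil (mem_H0.1 h P π hπ).1 (mem_fil_of h2.le)

lemma det_mem_wedge (hκ : IsK d κ) {p p' : K × K} (h : p ∈ H0 (lam d v))
    (h' : p' ∈ H0 (lam d v)) : wedge p p' ∈ H0 (OD κ) := by
  refine mem_L.2 fun P => ?_
  obtain ⟨π, -, hπ⟩ := exists_po P (-1)
  have e : wedge p p' = p.1 * (p'.2 - p'.1 * (v π / d π)) - p'.1 * (p.2 - p.1 * (v π / d π)) := by
    rw [wedge]
    ring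
  rw [e]
  exact sub_mem (fil_mul (mem_L.1 (fst_mem_wedge hκ h) P) (mem_H0.1 h' P π hπ).2)
    (fil_mul (mem_L.1 (fst_mem_wedge hκ h') P) (mem_H0.1 h P π hπ).2)

lemma line_mem_wedge (hκ : IsK d κ) {β : K} (hD : IsD (sh v β d) D) {p : K × K}
    (h : p ∈ H0 (lam d v)) (h' : p.2 + β * p.1 = 0) : p.1 ∈ H0 (OD (κ - D)) := by
  refine mem_L.2 fun P => ?_
  obtain ⟨π, -, hπ⟩ := exists_po P (-1)
  obtain ⟨h1, h2⟩ := hκ.unif hπ
  have h3 := hD P π hπ
  rw [Finsupp.sub_apply]
  rcases lt_or_ge 0 (po P (sh v β d π)) with h4 | h4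
  · have v0 := ne_zero_sys h4.ne'
    rw [← mul_mem_fil_iff (div_ne_zero v0 h1), div_eq_mul_inv, po_mul P v0 (inv_ne_zero h1),
      po_inv, h2, h3, max_eq_left h4.le]
    refine fil_of_mem ?_ (by omega)
    have e : sh v β d π * (d π)⁻¹ * p.1 = -(p.2 - p.1 * (v π / d π)) := by
      rw [sh_apply]
      field_simp
      linear_combination d π * h'
    rw [e]
    exact neg_mem (mem_H0.1 h P π hπ).2
  · rw [h3, max_eq_right h4, sub_zero]
    exact mem_L.1 (fst_mem_wedge hκ h) P

lemma smul_left_wedge {L K : Type} [Field L] [Field K] [Algebra L K] (a : L) (p p' : K × K) :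
    wedge (a • p) p' = a • wedge p p' := by
  simp only [wedge, Prod.smul_fst, Prod.smul_snd, smul_sub, smul_mul_assoc, mul_smul_comm]

lemma smul_right_wedge {L K : Type} [Field L] [Field K] [Algebra L K] (a : L) (p p' : K × K) :
    wedge p (a • p') = a • wedge p p' := by
  simp only [wedge, Prod.smul_fst, Prod.smul_snd, smul_sub, smul_mul_assoc, mul_smul_comm]

lemma span_wedge {L K : Type} [Field L] [Field K] [Algebra L K] {W : Set (K × K)}
    {Y : Submodule L K} (h : ∀ p ∈ W, ∀ p' ∈ W, wedge p p' ∈ Y) :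
    ∀ p ∈ span L W, ∀ p' ∈ span L W, wedge p p' ∈ Y := by
  intro p hp p' hp'
  induction hp using span_induction with
  | mem p hp =>
    induction hp' using span_induction with
    | mem p' hp' => exact h p hp p' hp'
    | zero => simp [wedge]
    | add a b _ _ ha hb =>
      have e : wedge p (a + b) = wedge p a + wedge p b := by
        simp only [wedge, Prod.fst_add, Prod.snd_add]
        ring
      rw [e]
      exact add_mem ha hb
    | smul a b _ hb =>
      rw [smul_right_wedge]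
      exact smul_mem _ _ hb
  | zero => simp [wedge]
  | add a b _ _ ha hb =>
    have e : wedge (a + b) p' = wedge a p' + wedge b p' := by
      simp only [wedge, Prod.fst_add, Prod.snd_add]
      ring
    rw [e]
    exact add_mem ha hb
  | smul a b _ hb =>
    rw [smul_left_wedge]
    exact smul_mem _ _ hb

namespace Sys
variable (S : Sys δ d v c A F)
include S

omit [CharZero k] [Fintype ι] in
/-- `S.reg`. -/
lemma mem_lam (a : ι → k) (e : k) : (A a, F a + algebraMap k K e) ∈ H0 (lam d v) := by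
  refine mem_H0.2 fun Q π hπ => ⟨(S.reg Q π hπ a).1, ?_⟩
  have e1 : F a + algebraMap k K e - A a * (v π / d π) =
      F a - A a * (v π / d π) + algebraMap k K e := by ring
  change F a + algebraMap k K e - A a * (v π / d π) ∈ Q.1
  rw [e1]
  exact add_mem (S.reg Q π hπ a).2 (Q.1.algebraMap_mem e)

omit [CharZero k] in
/-- The map `(a, e) ↦ (A a, F a + e)` is injective with values in `lev 0`. -/
lemma card_le_lev : Fintype.card ι + 1 ≤ finrank k (lev d v A F x 0) := by
  let φ : ((ι → k) × k) →ₗ[k] K × K := (A ∘ₗ LinearMap.fst k _ _).prod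
    (F ∘ₗ LinearMap.fst k _ _ + Algebra.linearMap k K ∘ₗ LinearMap.snd k _ _)
  have hφ : ∀ q, φ q = (A q.1, F q.1 + algebraMap k K q.2) := fun _ => rfl
  have h1 : ∀ q, φ q ∈ lev d v A F x 0 := fun q => mem_lev.2 ⟨⟨q.1, q.2, rfl⟩, by
    rw [pow_zero, one_smul]
    exact S.mem_lam q.1 q.2⟩
  have h2 : Injective (φ.codRestrict _ h1) := fun q q' h => by
    have h3 : φ q = φ q' := congrArg Subtype.val h
    rw [hφ, hφ, Prod.mk.injEq] at h3
    have h4 := S.inj h3.1
    have h5 := h3.2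
    rw [h4, add_right_inj] at h5
    exact Prod.ext h4 ((algebraMap k K).injective h5)
  have h6 := LinearMap.finrank_le_finrank_of_injective h2
  rwa [finrank_prod, finrank_fintype_fun_eq_card, finrank_self] at h6

omit [Fintype ι] in
/-- As `S.wedge_mem` the determinant of two members of `H0 (lam d v)` is in `L κ`; apply this to
`p, p'` and to `x ^ j • p, x ^ j • p'`, then `mem_sub_nsmul_pol`. -/
lemma wedge_lev (hκ : IsK d κ) {j : ℕ} {p p' : K × K} (h : p ∈ lev d v A F x j)
    (h' : p' ∈ lev d v A F x j) : wedge p p' ∈ H0 (OD (κ - (2 * j) • pol k x)) := by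
  obtain ⟨⟨a, e, rfl⟩, h1⟩ := mem_lev.1 h
  obtain ⟨⟨a', e', rfl⟩, h2⟩ := mem_lev.1 h'
  refine mem_sub_nsmul_pol _ (det_mem_wedge hκ (S.mem_lam a e) (S.mem_lam a' e')) ?_
  have h3 := det_mem_wedge hκ h1 h2
  rw [smul_left_wedge, smul_right_wedge, smul_smul, ← pow_add, ← two_mul] at h3
  exact h3

/-- `rank_step` for the lattice `cm (x ^ j • id) (lam d v)`; `wedge_rank` for the span of `lev j`
and the span `Y` of `L (κ - (2 j) • P)` over `k⟮x⟯` (the determinant is bilinear over `k⟮x⟯`,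
`span_induction` twice), `bt_eq_rank`, `T.bt_lt`. -/
lemma lev_step (hκ : IsK d κ) (T : Pen κ x n) (j : ℕ)
    (h : ∃ p ∈ lev d v A F x j, ∃ p' ∈ lev d v A F x j, wedge p p' ≠ 0) :
    0 < ll (κ - (2 * j) • pol k x) ∧ (finrank k (lev d v A F x j) : ℤ) ≤
      finrank k (lev d v A F x (j + 1)) + bt x (κ - (2 * j) • pol k x) + 1 := by
  have := FF.fin x T.tr
  have h0 : 0 < ll (κ - (2 * j) • pol k x) := by
    obtain ⟨p, hp, p', hp', hw⟩ := h
    exact finrank_pos_iff_exists_ne_zero.2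
      ⟨⟨_, S.wedge_lev hκ hp hp'⟩, fun e => hw (congrArg Subtype.val e)⟩
  refine ⟨h0, ?_⟩
  have h1 := rank_step T.tr (cm (x ^ j • LinearMap.id) (lam d v)) (lev d v A F x j)
    (lev d v A F x (j + 1)) inf_le_right (fun w hw hx => mem_lev.2 ⟨(mem_lev.1 hw).1, by
      rw [pow_succ, mul_smul]
      exact mem_H0.2 fun P => mem_H0.1 hx P⟩)
  have h2 := T.bt_lt (H := κ - (2 * j) • pol k x) (by
    rw [sub_sub_cancel]
    exact ll_pos_of_nonneg (nsmul_nonneg (pol_nonneg x) _))
  have h3 := bt_eq_rank T.tr (κ - (2 * j) • pol k x)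
  have h4 := wedge_rank T.prim (span k⟮x⟯ (lev d v A F x j : Set (K × K)))
    (span k⟮x⟯ (H0 (OD (κ - (2 * j) • pol k x)) : Set K))
    (span_wedge fun p hp p' hp' => subset_span (S.wedge_lev hκ hp hp'))
    (by rw [T.deg]; omega)
    (by
      obtain ⟨p, hp, p', hp', hw⟩ := h
      exact ⟨p, subset_span hp, p', subset_span hp', hw⟩)
  omega

/-- If all members have `p.1 = 0` then `a = 0` and the level is inside `span {(0, 1)}`. Otherwise
take `s` in the level with `s.1 ≠ 0` (so `ι` is not empty), `β = - s.2 / s.1`, `D` from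
`(S.shift β).exists_D`. Every `p ∈ H0 (lam d v)` with `p.2 + β * p.1 = 0` has `p.1 ∈ L (κ - D)`
(as in `mem_M`: `p.1 / d π` and `p.1 * (sh v β d π / d π)` are regular); apply to `p` and
`x ^ j • p`, `mem_sub_nsmul_pol`; `p ↦ p.1` is injective on the level. -/
lemma lev_line (hκ : IsK d κ) (j : ℕ)
    (h : ∀ p ∈ lev d v A F x j, ∀ p' ∈ lev d v A F x j, wedge p p' = 0) :
    finrank k (lev d v A F x j) ≤ 1 ∨ ∃ (β : K) (D : Div k K), IsD (sh v β d) D ∧
      finrank k (lev d v A F x j) ≤ ll (κ - D - j • pol k x) := by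
  by_cases h0 : ∀ p ∈ lev d v A F x j, p.1 = 0
  · left
    have h1 : lev d v A F x j ≤ span k {((0, 1) : K × K)} := fun p hp => by
      obtain ⟨a, e, rfl⟩ := (mem_lev.1 hp).1
      have h2 : a = 0 := S.inj ((h0 _ hp).trans (map_zero A).symm)
      exact mem_span_singleton.2 ⟨e, by simp [h2, Algebra.smul_def]⟩
    exact (finrank_mono h1).trans (finrank_span_singleton (by simp)).le
  right
  push Not at h0
  obtain ⟨s, hs, s0⟩ := h0
  have : Nonempty ι := by
    by_contra hι
    have := not_nonempty_iff.1 hι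
    obtain ⟨a, e, rfl⟩ := (mem_lev.1 hs).1
    exact s0 (by rw [Subsingleton.elim a 0]; exact map_zero A)
  obtain ⟨D, hD⟩ := (S.shift (-s.2 / s.1)).exists_D
  refine ⟨-s.2 / s.1, D, hD, ?_⟩
  have h1 : ∀ p ∈ lev d v A F x j, p.2 + -s.2 / s.1 * p.1 = 0 := fun p hp => by
    have h2 : s.1 * p.2 - p.1 * s.2 = 0 := h s hs p hp
    field_simp
    linear_combination h2
  have h2 : ∀ p : lev d v A F x j, (LinearMap.fst k K K ∘ₗ (lev d v A F x j).subtype) p ∈
      H0 (OD (κ - D - j • pol k x)) := fun p => by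
    obtain ⟨⟨a, e, h3⟩, h4⟩ := mem_lev.1 p.2
    have h6 : p.1 ∈ H0 (lam d v) := by
      rw [h3]
      exact S.mem_lam a e
    refine mem_sub_nsmul_pol j (line_mem_wedge hκ hD h6 (h1 p p.2))
      (line_mem_wedge hκ hD h4 ?_)
    have h5 := h1 p p.2
    simp only [Prod.smul_fst, Prod.smul_snd, smul_eq_mul]
    linear_combination x ^ j * h5
  refine LinearMap.finrank_le_finrank_of_injective (f := LinearMap.codRestrict _ _ h2)
    fun p q hpq => ?_
  have h3 : p.1.1 = q.1.1 := congrArg Subtype.val hpq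
  refine Subtype.ext (Prod.ext h3 ?_)
  have h4 := h1 p p.2
  rw [h3] at h4
  linear_combination h4 - h1 q q.2

/-- `j` is the first level on which all determinants vanish (`Nat.find`, `exists_ll_zero`,
`lev_step`). -/
theorem levels_pen (hκ : IsK d κ) (T : Pen κ x n) : ∃ j : ℕ,
    (∀ i < j, 0 < ll (κ - (2 * i) • pol k x)) ∧
    ((Fintype.card ι : ℤ) ≤ ∑ i ∈ Finset.range j, bt x (κ - (2 * i) • pol k x) + j ∨
      ∃ (β : K) (D : Div k K), IsD (sh v β d) D ∧ (Fintype.card ι : ℤ) + 1 ≤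
        ∑ i ∈ Finset.range j, bt x (κ - (2 * i) • pol k x) + j + ll (κ - D - j • pol k x)) := by
  classical
  have hex : ∃ j, ∀ p ∈ lev d v A F x j, ∀ p' ∈ lev d v A F x j, wedge p p' = 0 := by
    obtain ⟨N, hN⟩ := exists_ll_zero T.tr κ
    refine ⟨N, by_contra fun h => ?_⟩
    push Not at h
    have := (S.lev_step hκ T N h).1
    rw [hN _ (by omega)] at this
    omega
  have hstep : ∀ i < Nat.find hex, 0 < ll (κ - (2 * i) • pol k x) ∧
      (finrank k (lev d v A F x i) : ℤ) ≤
        finrank k (lev d v A F x (i + 1)) + bt x (κ - (2 * i) • pol k x) + 1 := fun i hi => by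
    have h := Nat.find_min hex hi
    push Not at h
    exact S.lev_step hκ T i h
  have hsum : ∀ i ≤ Nat.find hex, (Fintype.card ι : ℤ) + 1 ≤ finrank k (lev d v A F x i) +
      ∑ l ∈ Finset.range i, bt x (κ - (2 * l) • pol k x) + i := by
    intro i
    induction i with
    | zero =>
      intro _
      have := S.card_le_lev (x := x)
      simp only [Finset.range_zero, Finset.sum_empty]
      omega
    | succ i ih =>
      intro hi
      have h1 := ih (by omega)
      have h2 := (hstep i (by omega)).2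
      rw [Finset.sum_range_succ]
      push_cast
      omega
  refine ⟨Nat.find hex, fun i hi => (hstep i hi).1, ?_⟩
  have h1 := hsum _ le_rfl
  rcases S.lev_line hκ _ (Nat.find_spec hex) with h2 | ⟨β, D, hD, h2⟩
  · exact Or.inl (by omega)
  · exact Or.inr ⟨β, D, hD, by omega⟩

end Sys

end Pool.Agent.Lib.MP_13404a_ag.UB
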